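import Mathlib

set_option autoImplicit false

/-!
# Cube complexes, piecewise `ℓ^p` metrics, convex geodesic bicombings, compactifications

General definitions, following the problem file and Bridson-Haefliger (Definition I.7.32 for cubical
complexes, I.7.4 for the gluing metric, II.8.6 for the cone topology).
-/

namespace Pool.Agent.H71.Cube

open Set

/-! ### Metrics, geodesics, CAT(0) -/

/-- `d` is a metric. -/
structure IsMetric {Z : Type*} (d : Z → Z → ℝ) : Prop where
  eq_iff : ∀ x y, d x y = 0 ↔ x = y
  symm : ∀ x y, d x y = d y x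
  triangle : ∀ x y z, d x z ≤ d x y + d y z

/-- `γ`, restricted to `[0,1]`, is a constant speed geodesic from `x` to `y`. -/
def IsGeodesic {X : Type*} (d : X → X → ℝ) (x y : X) (γ : ℝ → X) : Prop :=
  γ 0 = x ∧ γ 1 = y ∧
    ∀ s ∈ Icc (0 : ℝ) 1, ∀ t ∈ Icc (0 : ℝ) 1, d (γ s) (γ t) = |s - t| * d x y

/-- `(X, d)` is a CAT(0) space: a geodesic metric space in which the distance from a vertex of a
geodesic triangle to a point of the opposite side is at most the corresponding distance in the
Euclidean comparison triangle. -/
structure IsCAT0 {X : Type*} (d : X → X → ℝ) : Prop where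
  metric : IsMetric d
  geodesic : ∀ x y, ∃ γ, IsGeodesic d x y γ
  comparison : ∀ x y z γ, IsGeodesic d y z γ → ∀ t ∈ Icc (0 : ℝ) 1,
    d x (γ t) ^ 2 ≤ (1 - t) * d x y ^ 2 + t * d x z ^ 2 - t * (1 - t) * d y z ^ 2

/-! ### Cube complexes -/

/-- The unit cube `[0,1]^n`. -/
abbrev UCube (n : ℕ) : Type := Fin n → unitInterval

/-- The `ℓ^p` distance of two points of the unit cube `[0,1]^n`. -/
noncomputable def cubeDist {n : ℕ} (p : ENNReal) (z w : UCube n) : ℝ :=
  ‖(WithLp.toLp p (fun i => (z i : ℝ) - (w i : ℝ)) : PiLp p (fun _ : Fin n => ℝ))‖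

/-- Faces of the unit cube: some coordinates are fixed to be `0` or `1`. -/
def IsFace {n : ℕ} (T : Set (UCube n)) : Prop :=
  ∃ (S : Set (Fin n)) (ε : UCube n), (∀ i ∈ S, ε i = 0 ∨ ε i = 1) ∧ T = {z | ∀ i ∈ S, z i = ε i}

/-- A cube complex with underlying set `X` (Bridson-Haefliger, Definition I.7.32): a family of
injective maps of unit cubes to `X` covering `X`, such that if the images of two cubes meet, then
there is a Euclidean isometry `h` from a face `T` of the first cube onto a face `T'` of the second
one such that a point `z` of the first cube and a point `z'` of the second cube have the same image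
if and only if `z ∈ T` and `h z = z'`. -/
structure CubeComplex (X : Type) where
  Idx : Type
  dim : Idx → ℕ
  chart : (c : Idx) → UCube (dim c) → X
  covers : ∀ x, ∃ c z, chart c z = x
  injective : ∀ c, Function.Injective (chart c)
  inter : ∀ c c', (∃ z z', chart c z = chart c' z') →
    ∃ (T : Set (UCube (dim c))) (T' : Set (UCube (dim c'))) (h : T ≃ T'),
      IsFace T ∧ IsFace T' ∧
      (∀ a b : T, cubeDist 2 (h a : UCube (dim c')) (h b : UCube (dim c')) =
        cubeDist 2 (a : UCube (dim c)) (b : UCube (dim c))) ∧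
      ∀ z z', chart c z = chart c' z' ↔ ∃ hz : z ∈ T, (h ⟨z, hz⟩ : UCube (dim c')) = z'

namespace CubeComplex

variable {X : Type} (K : CubeComplex X)

/-- `K.Chain p x y ℓ`: there is a finite sequence of points from `x` to `y`, any two consecutive
points lying in a common cube, such that `ℓ` is the sum of their `ℓ^p` distances in these cubes. -/
inductive Chain (p : ENNReal) : X → X → ℝ → Prop
  | nil (x : X) : Chain p x x 0
  | cons (c : K.Idx) (z w : UCube (K.dim c)) (y : X) (ℓ : ℝ) :
      Chain p (K.chart c w) y ℓ → Chain p (K.chart c z) y (cubeDist p z w + ℓ)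

/-- The piecewise `ℓ^p` metric `d_p` (gluing metric): infimum of the lengths of chains. -/
noncomputable def dist (p : ENNReal) (x y : X) : ℝ := sInf {ℓ | K.Chain p x y ℓ}

/-- Any two points can be joined by a chain. -/
def Connected : Prop := ∀ x y, ∃ ℓ, K.Chain 2 x y ℓ

/-- `K` is a CAT(0) cube complex: it is connected and its piecewise Euclidean metric `d_2` is
CAT(0). -/
def IsCAT0Complex : Prop := K.Connected ∧ IsCAT0 (K.dist 2)

/-- Every point lies in finitely many cubes. -/
def LocallyFinite : Prop := ∀ x, {c | ∃ z, K.chart c z = x}.Finite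

/-- The topology given by `d_2`, generated by the open balls. -/
@[reducible] def topology : TopologicalSpace X :=
  TopologicalSpace.generateFrom {B | ∃ (x : X) (ε : ℝ), B = {y | K.dist 2 x y < ε}}

/-- The action of `G` on `X` is by automorphisms of the cube complex (every element maps every cube
isometrically onto a cube) and the quotient space is compact. -/
def IsCocompactAction (G : Type) [Group G] [MulAction G X] : Prop :=
  (∀ (g : G) (c : K.Idx), ∃ (c' : K.Idx) (e : UCube (K.dim c) ≃ UCube (K.dim c')),
    (∀ z w, cubeDist 2 (e z) (e w) = cubeDist 2 z w) ∧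
      ∀ z, g • K.chart c z = K.chart c' (e z)) ∧
  letI : TopologicalSpace X := K.topology
  CompactSpace (MulAction.orbitRel.Quotient G X)

end CubeComplex

/-! ### Bicombings, rays, the compactification -/

/-- `σ` is a convex geodesic bicombing of `(X, d)`; `σ x y` is only relevant on `[0,1]`. -/
structure IsConvexGeodesicBicombing {X : Type} (d : X → X → ℝ) (σ : X → X → ℝ → X) : Prop where
  geodesic : ∀ x y, IsGeodesic d x y (σ x y)
  convex : ∀ x y x' y', ConvexOn ℝ (Icc (0 : ℝ) 1) (fun t => d (σ x y t) (σ x' y' t))

/-- `c : [0,∞) → X` is a `σ`-ray from `o`: a geodesic ray with `c 0 = o` such that for all `T > 0`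
the restriction of `c` to `[0,T]` is a reparametrisation of the geodesic `σ o (c T)`. -/
def IsRay {X : Type} (d : X → X → ℝ) (σ : X → X → ℝ → X) (o : X) (c : NNReal → X) : Prop :=
  c 0 = o ∧ (∀ s t : NNReal, d (c s) (c t) = |(s : ℝ) - t|) ∧
    ∀ T : NNReal, 0 < T → ∀ t : NNReal, t ≤ 1 → c (t * T) = σ o (c T) t

/-- The compactification: the disjoint union of `X` and of the set of all `σ`-rays from `o`. -/
def Bord {X : Type} (d : X → X → ℝ) (σ : X → X → ℝ → X) (o : X) : Type :=
  X ⊕ {c : NNReal → X // IsRay d σ o c}

namespace Bord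

variable {X : Type} {d : X → X → ℝ} {σ : X → X → ℝ → X} {o : X}

/-- Points of `X` as points of the compactification. -/
def ofPoint (x : X) : Bord d σ o := Sum.inl x

/-- Rays as points of the compactification. -/
def ofRay (c : {c : NNReal → X // IsRay d σ o c}) : Bord d σ o := Sum.inr c

/-- The basic neighbourhood of the ray `c`: the points and rays whose `σ`-geodesic from `o` passes,
at distance `R` from `o`, within `ε` of `c R`. -/
def nbhd (c : {c : NNReal → X // IsRay d σ o c}) (R : NNReal) (ε : ℝ) : Set (Bord d σ o) :=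
  {ξ | (∃ x, ξ = ofPoint x ∧ (R : ℝ) < d o x ∧ d (σ o x (R / d o x)) (c.1 R) < ε) ∨
    ∃ c', ξ = ofRay c' ∧ d (c'.1 R) (c.1 R) < ε}

/-- The cone topology: generated by the open balls of `X` and the basic neighbourhoods of rays. -/
instance coneTopology : TopologicalSpace (Bord d σ o) :=
  TopologicalSpace.generateFrom
    ({V | ∃ (x : X) (ε : ℝ), V = ofPoint '' {y | d x y < ε}} ∪
      {V | ∃ (c : {c : NNReal → X // IsRay d σ o c}) (R : NNReal) (ε : ℝ),
        0 < R ∧ 0 < ε ∧ V = nbhd c R ε})

end Bord

end Pool.Agent.H71.Cube
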