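import Mathlib
import Pool.Agent.H71.Cube.Defs

set_option autoImplicit false

/-!
# Gluing two geodesic spaces at a point

Distance functions `d : Z → Z → ℝ`; existence of intermediate points, Busemann convexity (triangle
form) and the CAT(0) inequality are preserved by gluing two subsets at one point.
-/

namespace Pool.Agent.H71.Cube

open Set

namespace IsMetric

variable {Z : Type*} {d : Z → Z → ℝ}

lemma self (h : IsMetric d) (x : Z) : d x x = 0 := (h.eq_iff x x).mpr rfl

lemma nonneg (h : IsMetric d) (x y : Z) : 0 ≤ d x y := by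
  have h1 := h.triangle x y x
  rw [h.self, h.symm y x] at h1
  linarith

lemma eq_of_le (h : IsMetric d) {x y : Z} (h0 : d x y ≤ 0) : x = y :=
  (h.eq_iff x y).mp (le_antisymm h0 (h.nonneg x y))

lemma abs_sub_le (h : IsMetric d) (x y z : Z) : |d x y - d x z| ≤ d y z := by
  rw [abs_le]
  constructor
  · have := h.triangle x y z; linarith
  · have := h.triangle x z y; rw [h.symm z y] at this; linarith

end IsMetric

/-- `m` is the point at fraction `t` on a geodesic from `x` to `y`. -/
def TP {Z : Type*} (d : Z → Z → ℝ) (t : ℝ) (x y m : Z) : Prop :=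
  d x m = t * d x y ∧ d m y = (1 - t) * d x y

/-- Existence of intermediate points in `A`. -/
def Geo {Z : Type*} (d : Z → Z → ℝ) (A : Set Z) : Prop :=
  ∀ x ∈ A, ∀ y ∈ A, ∀ t ∈ Icc (0 : ℝ) 1, ∃ m ∈ A, TP d t x y m

/-- Busemann convexity, in the form for two geodesics with the same starting point. -/
def Tri {Z : Type*} (d : Z → Z → ℝ) (A : Set Z) : Prop :=
  ∀ x ∈ A, ∀ y ∈ A, ∀ z ∈ A, ∀ t ∈ Icc (0 : ℝ) 1, ∀ m ∈ A, ∀ m' ∈ A,
    TP d t x y m → TP d t x z m' → d m m' ≤ t * d y z

/-- The CAT(0) inequality for intermediate points. -/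
def Cat {Z : Type*} (d : Z → Z → ℝ) (A : Set Z) : Prop :=
  ∀ x ∈ A, ∀ y ∈ A, ∀ z ∈ A, ∀ t ∈ Icc (0 : ℝ) 1, ∀ m ∈ A, TP d t y z m →
    d x m ^ 2 ≤ (1 - t) * d x y ^ 2 + t * d x z ^ 2 - t * (1 - t) * d y z ^ 2

section

variable {Z : Type*} {d : Z → Z → ℝ} {A B : Set Z} {e : Z}

lemma TP.symm (hd : IsMetric d) {t : ℝ} {x y m : Z} (h : TP d t x y m) : TP d (1 - t) y x m := by
  constructor
  · rw [hd.symm y m, hd.symm y x, h.2]
  · rw [hd.symm m x, hd.symm y x, h.1]; ring

lemma TP.unique (hd : IsMetric d) (hT : Tri d A) {t : ℝ} (ht : t ∈ Icc (0 : ℝ) 1) {x y m m' : Z}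
    (hx : x ∈ A) (hy : y ∈ A) (hm : m ∈ A) (hm' : m' ∈ A) (h : TP d t x y m) (h' : TP d t x y m') :
    m = m' := by
  have := hT x hx y hy y hy t ht m hm m' hm' h h'
  rw [hd.self, mul_zero] at this
  exact hd.eq_of_le this

/-- Points between `x` and `e` at distances `a ≤ b` from `x` have distance `b - a`. -/
lemma between_dist (hd : IsMetric d) (hG : Geo d A) (hT : Tri d A) {x e m m' : Z}
    (hx : x ∈ A) (he : e ∈ A) (hm : m ∈ A) (hm' : m' ∈ A)
    (h : d x m + d m e = d x e) (h' : d x m' + d m' e = d x e) (hle : d x m ≤ d x m') :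
    d m m' = d x m' - d x m := by
  rcases (hd.nonneg x m').eq_or_lt with h0 | h0
  · have h1 : x = m' := hd.eq_of_le h0.symm.le
    have h2 : x = m := hd.eq_of_le (hle.trans h0.symm.le)
    rw [← h1, ← h2, hd.self]; simp
  · have hxe : 0 < d x e := by have := hd.nonneg m' e; linarith
    set s := d x m / d x m' with hs
    have hs01 : s ∈ Icc (0 : ℝ) 1 :=
      ⟨div_nonneg (hd.nonneg _ _) h0.le, (div_le_one h0).mpr hle⟩
    obtain ⟨q, hq, hq1, hq2⟩ := hG x hx m' hm' s hs01
    have hq1' : d x q = d x m := by rw [hq1, hs]; field_simp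
    have hq2' : d q m' = d x m' - d x m := by rw [hq2, hs]; field_simp
    have hqe : d q e ≤ d x e - d x m := by
      have := hd.triangle q m' e; linarith
    have hqe' : d q e = d x e - d x m := by
      have := hd.triangle x q e; linarith
    set t := d x m / d x e with ht
    have ht01 : t ∈ Icc (0 : ℝ) 1 := by
      refine ⟨div_nonneg (hd.nonneg _ _) hxe.le, (div_le_one hxe).mpr ?_⟩
      have := hd.nonneg m e; linarith
    have h1 : TP d t x e q := by
      constructor
      · rw [hq1', ht]; field_simp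
      · rw [hqe', ht]; field_simp
    have h2 : TP d t x e m := by
      constructor
      · rw [ht]; field_simp
      · rw [ht]; field_simp; linarith
    have h3 : q = m := TP.unique hd hT ht01 hx he hq hm h1 h2
    rw [← h3, hq2', hq1']

lemma between_dist_abs (hd : IsMetric d) (hG : Geo d A) (hT : Tri d A) {x e m m' : Z}
    (hx : x ∈ A) (he : e ∈ A) (hm : m ∈ A) (hm' : m' ∈ A)
    (h : d x m + d m e = d x e) (h' : d x m' + d m' e = d x e) :
    d m m' = |d x m - d x m'| := by
  rcases le_total (d x m) (d x m') with hle | hle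
  · rw [between_dist hd hG hT hx he hm hm' h h' hle, abs_sub_comm, abs_of_nonneg (by linarith)]
  · rw [hd.symm, between_dist hd hG hT hx he hm' hm h' h hle, abs_of_nonneg (by linarith)]

/-- The hypothesis for gluing `A` and `B` at `e`. -/
structure Glued (d : Z → Z → ℝ) (A B : Set Z) (e : Z) : Prop where
  metric : IsMetric d
  memA : e ∈ A
  memB : e ∈ B
  dist : ∀ a ∈ A, ∀ b ∈ B, d a b = d a e + d e b

lemma Glued.symm (h : Glued d A B e) : Glued d B A e where
  metric := h.metric
  memA := h.memB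
  memB := h.memA
  dist := fun b hb a ha => by
    rw [h.metric.symm b a, h.dist a ha b hb, h.metric.symm a e, h.metric.symm e b, add_comm]

lemma Glued.dist' (h : Glued d A B e) {a b : Z} (ha : a ∈ A) (hb : b ∈ B) :
    d b a = d b e + d e a := h.symm.dist b hb a ha

/-- An intermediate point of two points of `A` that lies in `B` is `e`. -/
lemma Glued.mem_of_TP (h : Glued d A B e) {t : ℝ} {x y m : Z} (hx : x ∈ A) (hy : y ∈ A)
    (hm : m ∈ A ∪ B) (hTP : TP d t x y m) : m ∈ A := by
  rcases hm with hm | hm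
  · exact hm
  · have h1 := h.dist x hx m hm
    have h2 := h.dist' hy hm
    have h3 := h.metric.triangle x e y
    have h4 : d x m + d m y = d x y := by rw [hTP.1, hTP.2]; ring
    have h5 : d e m ≤ 0 := by rw [h.metric.symm m e] at h2; linarith
    rw [← h.metric.eq_of_le h5]
    exact h.memA

lemma Glued.geo (h : Glued d A B e) (hA : Geo d A) (hB : Geo d B) : Geo d (A ∪ B) := by
  have key : ∀ {A B : Set Z}, Glued d A B e → Geo d A → Geo d B → ∀ x ∈ A, ∀ y ∈ B,
      ∀ t ∈ Icc (0 : ℝ) 1, ∃ m ∈ A ∪ B, TP d t x y m := by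
    intro A B h hA hB x hx y hy t ht
    have hD := h.dist x hx y hy
    have hn1 := h.metric.nonneg x e
    have hn2 := h.metric.nonneg e y
    have hn := h.metric.nonneg x y
    rcases le_or_gt (t * d x y) (d x e) with hle | hlt
    · rcases hn1.eq_or_lt with h0 | h0
      · refine ⟨e, Or.inl h.memA, ?_, ?_⟩
        · have := mul_nonneg ht.1 hn
          linarith
        · have := mul_nonneg ht.1 hn
          linarith
      · obtain ⟨m, hm, hm1, hm2⟩ := hA x hx e h.memA (t * d x y / d x e)
          ⟨div_nonneg (mul_nonneg ht.1 hn) h0.le, (div_le_one h0).mpr hle⟩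
        refine ⟨m, Or.inl hm, ?_, ?_⟩
        · rw [hm1]; field_simp
        · rw [h.dist m hm y hy, hm2]; field_simp; linarith
    · have h0 : 0 < d e y := by
        have := mul_le_of_le_one_left hn ht.2
        linarith
      obtain ⟨m, hm, hm1, hm2⟩ := hB e h.memB y hy ((t * d x y - d x e) / d e y)
          ⟨div_nonneg (by linarith) h0.le, (div_le_one h0).mpr (by
            have := mul_le_of_le_one_left hn ht.2
            linarith)⟩
      refine ⟨m, Or.inr hm, ?_, ?_⟩
      · rw [h.dist x hx m hm, hm1]; field_simp; linarith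
      · rw [hm2]; field_simp; linarith
  intro x hx y hy t ht
  rcases hx with hx | hx <;> rcases hy with hy | hy
  · obtain ⟨m, hm, h1⟩ := hA x hx y hy t ht
    exact ⟨m, Or.inl hm, h1⟩
  · exact key h hA hB x hx y hy t ht
  · rw [union_comm]
    exact key h.symm hB hA x hx y hy t ht
  · obtain ⟨m, hm, h1⟩ := hB x hx y hy t ht
    exact ⟨m, Or.inr hm, h1⟩

/-- Case `x, y ∈ A`, `z ∈ B` of Busemann convexity. -/
lemma Glued.tri_AAB (h : Glued d A B e) (hGA : Geo d A) (hA : Tri d A)
    {x y z m m' : Z} (hx : x ∈ A) (hy : y ∈ A) (hz : z ∈ B) {t : ℝ} (ht : t ∈ Icc (0 : ℝ) 1)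
    (hm : m ∈ A ∪ B) (hm' : m' ∈ A ∪ B) (h1 : TP d t x y m) (h2 : TP d t x z m') :
    d m m' ≤ t * d y z := by
  have hd := h.metric
  have hmA := h.mem_of_TP hx hy hm h1
  obtain ⟨q, hq, hq1⟩ := hGA x hx e h.memA t ht
  have h3 := hA x hx y hy e h.memA t ht m hmA q hq h1 hq1
  have hyz := h.dist y hy z hz
  have hxz := h.dist x hx z hz
  have h4 : d q m' = t * d e z := by
    rcases hm' with hm' | hm'
    · have h5 := h.dist m' hm' z hz
      have h6 : d x m' + d m' e = d x e := by rw [h2.1]; have := h2.2; linarith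
      have h7 : d x q + d q e = d x e := by rw [hq1.1, hq1.2]; ring
      have h8 : d x q ≤ d x m' := by
        rw [hq1.1, h2.1, hxz]
        have := mul_nonneg ht.1 (hd.nonneg e z)
        linarith
      rw [between_dist hd hGA hA hx h.memA hq hm' h7 h6 h8, h2.1, hq1.1, hxz]
      ring
    · have h5 := h.dist x hx m' hm'
      rw [h.dist q hq m' hm', hq1.2]
      have := h2.1
      rw [hxz, h5] at this
      linarith
  have h9 := hd.triangle m q m'
  rw [hyz]
  linarith

/-- Case `x ∈ A`, `y, z ∈ B` of Busemann convexity, first form. -/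
lemma Glued.tri_ABB_aux (h : Glued d A B e) (hGA : Geo d A) (hA : Tri d A) (hGB : Geo d B)
    (hB : Tri d B) {x y z m m' : Z} (hx : x ∈ A) (hy : y ∈ B) (hz : z ∈ B) {t : ℝ}
    (ht : t ∈ Icc (0 : ℝ) 1) (hm : m ∈ A ∪ B) (hm' : m' ∈ A ∪ B) (h1 : TP d t x y m)
    (h2 : TP d t x z m') (hle : d e z ≤ d e y) :
    d m m' ≤ t * d y z := by
  have hd := h.metric
  have hxy := h.dist x hx y hy
  have hxz := h.dist x hx z hz
  have habs := hd.abs_sub_le e y z
  have hyz : d e y - d e z ≤ d y z := (le_abs_self _).trans habs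
  have hc := hd.nonneg x e
  have hyn := hd.nonneg e y
  have hzn := hd.nonneg e z
  have ht0 := ht.1
  have ht1 := ht.2
  rcases hm with hm | hm <;> rcases hm' with hm' | hm'
  · -- both before e
    have h3 := h.dist m hm y hy
    have h4 := h.dist m' hm' z hz
    have e1 : d x m + d m e = d x e := by have := h1.1; have := h1.2; linarith
    have e2 : d x m' + d m' e = d x e := by have := h2.1; have := h2.2; linarith
    rw [between_dist_abs hd hGA hA hx h.memA hm hm' e1 e2, h1.1, h2.1, hxy, hxz,
      show t * (d x e + d e y) - t * (d x e + d e z) = t * (d e y - d e z) by ring, abs_mul,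
      abs_of_nonneg ht0, abs_of_nonneg (by linarith : 0 ≤ d e y - d e z)]
    exact mul_le_mul_of_nonneg_left hyz ht0
  · -- m before e, m' after e
    have h3 := h.dist m hm y hy
    have h4 := h.dist x hx m' hm'
    have h5 := h.dist m hm m' hm'
    have e1 := h1.1
    have e2 := h1.2
    have e3 := h2.1
    have e4 := h2.2
    have n1 := hd.nonneg m e
    have n2 := hd.nonneg e m'
    rw [hxy] at e1 e2
    rw [hxz] at e3 e4
    have h6 : t * d e z ≤ t * d e y := mul_le_mul_of_nonneg_left hle ht0
    have h7 : d m m' ≤ 0 := by rw [h5]; nlinarith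
    exact h7.trans (mul_nonneg ht0 (hd.nonneg y z))
  · -- m after e, m' before e
    have h3 := h.dist x hx m hm
    have h4 := h.dist m' hm' z hz
    have h5 := h.dist' hm' hm
    have e1 := h1.1
    have e3 := h2.1
    have e4 := h2.2
    rw [hxy] at e1
    rw [hxz] at e3 e4
    have h6 : t * (d e y - d e z) ≤ t * d y z := mul_le_mul_of_nonneg_left hyz ht0
    rw [h5, hd.symm m e, hd.symm e m']
    have h7 : d m' e = (1 - t) * (d x e + d e z) - d e z := by linarith
    have h8 : d e m = t * (d x e + d e y) - d x e := by linarith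
    rw [h7, h8]
    nlinarith
  · -- both after e
    have h3 := h.dist x hx m hm
    have h4 := h.dist x hx m' hm'
    have e1 := h1.1
    have e2 := h1.2
    have e3 := h2.1
    have e4 := h2.2
    rw [hxy] at e1 e2
    rw [hxz] at e3 e4
    have ha : d e m = t * (d x e + d e y) - d x e := by linarith
    have hb : d e m' = t * (d x e + d e z) - d x e := by linarith
    rcases hzn.eq_or_lt with h0 | h0
    · -- z = e
      have hze : e = z := hd.eq_of_le h0.symm.le
      have n1 := hd.nonneg e m'
      have h5 : d e m' = 0 := by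
        rw [← h0] at hb
        have : t * d x e ≤ d x e := mul_le_of_le_one_left hc ht1
        linarith
      have h6 : e = m' := hd.eq_of_le h5.le
      rw [← h6, hd.symm m e, ha, ← hze, hd.symm y e]
      have : t * d x e ≤ d x e := mul_le_of_le_one_left hc ht1
      linarith
    · have hs0 : 0 ≤ d e m' / d e z := div_nonneg (hd.nonneg _ _) h0.le
      have hs1 : d e m' / d e z ≤ 1 := by
        rw [div_le_one h0, hb]
        have : t * (d x e + d e z) ≤ d x e + d e z := mul_le_of_le_one_left (by linarith) ht1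
        linarith
      set s := d e m' / d e z with hs
      have hsz : s * d e z = d e m' := by rw [hs]; field_simp
      obtain ⟨q, hq, hq1, hq2⟩ := hGB e h.memB y hy s ⟨hs0, hs1⟩
      have hm'TP : TP d s e z m' := by
        constructor
        · exact hsz.symm
        · rw [e4]
          linear_combination hsz + hb
      have h5 := hB e h.memB y hy z hz s ⟨hs0, hs1⟩ q hq m' hm' ⟨hq1, hq2⟩ hm'TP
      have hqy : d e q + d q y = d e y := by rw [hq1, hq2]; ring
      have hmy : d e m + d m y = d e y := by rw [ha, e2]; ring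
      have hkey : d e m - s * d e y = (1 - t) * (d x e / d e z) * (d e y - d e z) := by
        rw [ha, hs, hb]; field_simp; ring
      have hge : 0 ≤ (1 - t) * (d x e / d e z) * (d e y - d e z) :=
        mul_nonneg (mul_nonneg (by linarith) (div_nonneg hc h0.le)) (by linarith)
      have h6 : d q m = d e m - d e q := between_dist hd hGB hB h.memB hy hq hm hqy hmy (by
        rw [hq1]; linarith)
      have h7 := hd.triangle m q m'
      rw [hd.symm m q, h6, hq1, hkey] at h7
      have h8 : (1 - t) * (d x e / d e z) * (d e y - d e z) ≤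
          (1 - t) * (d x e / d e z) * d y z :=
        mul_le_mul_of_nonneg_left hyz (mul_nonneg (by linarith) (div_nonneg hc h0.le))
      have h9 : s + (1 - t) * (d x e / d e z) = t := by
        rw [hs, hb]; field_simp; ring
      have h10 : s * d y z + (1 - t) * (d x e / d e z) * d y z = t * d y z := by
        rw [← add_mul, h9]
      linarith

lemma Glued.tri_ABB (h : Glued d A B e) (hGA : Geo d A) (hA : Tri d A) (hGB : Geo d B)
    (hB : Tri d B) {x y z m m' : Z} (hx : x ∈ A) (hy : y ∈ B) (hz : z ∈ B) {t : ℝ}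
    (ht : t ∈ Icc (0 : ℝ) 1) (hm : m ∈ A ∪ B) (hm' : m' ∈ A ∪ B) (h1 : TP d t x y m)
    (h2 : TP d t x z m') : d m m' ≤ t * d y z := by
  rcases le_total (d e z) (d e y) with hle | hle
  · exact h.tri_ABB_aux hGA hA hGB hB hx hy hz ht hm hm' h1 h2 hle
  · rw [h.metric.symm m m', h.metric.symm y z]
    exact h.tri_ABB_aux hGA hA hGB hB hx hz hy ht hm' hm h2 h1 hle

lemma Glued.tri (h : Glued d A B e) (hGA : Geo d A) (hA : Tri d A) (hGB : Geo d B)
    (hB : Tri d B) : Tri d (A ∪ B) := by
  have key : ∀ {A B : Set Z}, Glued d A B e → Geo d A → Tri d A → Geo d B → Tri d B →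
      ∀ x ∈ A, ∀ y ∈ A ∪ B, ∀ z ∈ A ∪ B, ∀ t ∈ Icc (0 : ℝ) 1, ∀ m ∈ A ∪ B, ∀ m' ∈ A ∪ B,
      TP d t x y m → TP d t x z m' → d m m' ≤ t * d y z := by
    intro A B h hGA hA hGB hB x hx y hy z hz t ht m hm m' hm' h1 h2
    rcases hy with hy | hy <;> rcases hz with hz | hz
    · exact hA x hx y hy z hz t ht m (h.mem_of_TP hx hy hm h1) m' (h.mem_of_TP hx hz hm' h2) h1 h2
    · exact h.tri_AAB hGA hA hx hy hz ht hm hm' h1 h2
    · rw [h.metric.symm m m', h.metric.symm y z]
      exact h.tri_AAB hGA hA hx hz hy ht hm' hm h2 h1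
    · exact h.tri_ABB hGA hA hGB hB hx hy hz ht hm hm' h1 h2
  intro x hx y hy z hz t ht m hm m' hm' h1 h2
  rcases hx with hx | hx
  · exact key h hGA hA hGB hB x hx y hy z hz t ht m hm m' hm' h1 h2
  · rw [union_comm] at hy hz hm hm'
    exact key h.symm hGB hB hGA hA x hx y hy z hz t ht m hm m' hm' h1 h2

/-- Convexity of the distance to a point follows from the CAT(0) inequality. -/
lemma convex_of_cat (hd : IsMetric d) {x y z m : Z} {t : ℝ} (ht : t ∈ Icc (0 : ℝ) 1)
    (h : d x m ^ 2 ≤ (1 - t) * d x y ^ 2 + t * d x z ^ 2 - t * (1 - t) * d y z ^ 2) :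
    d x m ≤ (1 - t) * d x y + t * d x z := by
  have h1 := hd.abs_sub_le x y z
  have h2 : (d x y - d x z) ^ 2 ≤ d y z ^ 2 := by
    rw [← sq_abs (d x y - d x z)]
    exact pow_le_pow_left₀ (abs_nonneg _) h1 2
  have h3 : 0 ≤ t * (1 - t) := mul_nonneg ht.1 (by linarith [ht.2])
  have h4 := mul_le_mul_of_nonneg_left h2 h3
  have h5 : 0 ≤ (1 - t) * d x y + t * d x z :=
    add_nonneg (mul_nonneg (by linarith [ht.2]) (hd.nonneg _ _)) (mul_nonneg ht.1 (hd.nonneg _ _))
  apply le_of_sq_le_sq _ h5
  nlinarith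

lemma Glued.cat (h : Glued d A B e) (hA : Cat d A) (hB : Cat d B) : Cat d (A ∪ B) := by
  have hd := h.metric
  -- y, z in A
  have key1 : ∀ {A B : Set Z}, Glued d A B e → Cat d A → ∀ x ∈ A ∪ B, ∀ y ∈ A, ∀ z ∈ A,
      ∀ t ∈ Icc (0 : ℝ) 1, ∀ m ∈ A ∪ B, TP d t y z m →
      d x m ^ 2 ≤ (1 - t) * d x y ^ 2 + t * d x z ^ 2 - t * (1 - t) * d y z ^ 2 := by
    intro A B h hA x hx y hy z hz t ht m hm h1
    have hmA := h.mem_of_TP hy hz hm h1
    rcases hx with hx | hx
    · exact hA x hx y hy z hz t ht m hmA h1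
    · have h2 := hA e h.memA y hy z hz t ht m hmA h1
      have h3 := convex_of_cat hd ht h2
      rw [h.dist' hmA hx, h.dist' hy hx, h.dist' hz hx]
      have h4 := mul_le_mul_of_nonneg_left h3 (hd.nonneg x e)
      nlinarith
  -- y in A, z in B, m in A
  have key2 : ∀ {A B : Set Z}, Glued d A B e → Cat d A → ∀ x ∈ A ∪ B, ∀ y ∈ A, ∀ z ∈ B,
      ∀ t ∈ Icc (0 : ℝ) 1, ∀ m ∈ A, TP d t y z m →
      d x m ^ 2 ≤ (1 - t) * d x y ^ 2 + t * d x z ^ 2 - t * (1 - t) * d y z ^ 2 := by
    intro A B h hA x hx y hy z hz t ht m hm h1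
    have hyz := h.dist y hy z hz
    have hmz := h.dist m hm z hz
    have e1 := h1.1
    have e2 := h1.2
    have n1 := hd.nonneg y e
    have n2 := hd.nonneg e z
    have n3 := hd.nonneg m e
    have n4 := hd.nonneg y m
    have n5 := hd.nonneg y z
    set α := d y e with hα
    set β := d e z with hβ
    have hD : d y z = α + β := hyz
    have hme : d m e = α - t * (α + β) := by rw [hmz] at e2; rw [hD] at e2; linarith
    rw [hD] at e1 ⊢
    rcases hx with hx | hx
    · -- x in A
      have hxz := h.dist x hx z hz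
      rw [hxz]
      rcases n1.eq_or_lt with h0 | h0
      · -- α = 0
        have h2 : y = e := hd.eq_of_le h0.symm.le
        have h3 : t * β = 0 := by
          have := mul_nonneg ht.1 n2
          rw [← h0] at hme
          nlinarith
        have h4 : y = m := hd.eq_of_le (by rw [e1, ← h0]; nlinarith)
        have hxe : d x e = d x y := by rw [h2]
        rw [← h4, hxe, ← h0]
        have h5 : t * β ^ 2 = 0 := by rw [sq, ← mul_assoc, h3, zero_mul]
        have h6 : t * (d x y + β) ^ 2 = t * d x y ^ 2 := by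
          have : t * (d x y + β) ^ 2 = t * d x y ^ 2 + 2 * d x y * (t * β) + t * β ^ 2 := by ring
          rw [this, h3, h5]; ring
        rw [h6]
        have h7 : t * (1 - t) * (0 + β) ^ 2 = (1 - t) * (t * β ^ 2) := by ring
        rw [h7, h5]
        linarith
      · -- α > 0
        set s := t * (α + β) / α with hs
        have hsα : s * α = t * (α + β) := by rw [hs]; field_simp
        have hs0 : 0 ≤ s := div_nonneg (mul_nonneg ht.1 (by linarith)) h0.le
        have hs1 : s ≤ 1 := by rw [hs, div_le_one h0]; linarith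
        have hTP : TP d s y e m := by
          constructor
          · rw [e1, ← hα, hsα]
          · rw [hme, ← hα, sub_mul, one_mul, hsα]
        have h2 := hA x hx y hy e h.memA s ⟨hs0, hs1⟩ m hm hTP
        rw [← hα] at h2
        have h3 := hd.abs_sub_le x e y
        rw [hd.symm e y, ← hα] at h3
        have h4 : (d x e - d x y) ^ 2 ≤ α ^ 2 := by
          rw [← sq_abs (d x e - d x y)]
          exact pow_le_pow_left₀ (abs_nonneg _) h3 2
        -- (ξ - α)^2 ≤ η^2
        have h5 : (d x e - α) ^ 2 ≤ d x y ^ 2 := by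
          have h6 : |d x e - α| ≤ d x y := by
            have h7 := hd.triangle x y e
            have h8 := hd.triangle y x e
            rw [hd.symm y x] at h8
            rw [← hα] at h7 h8
            rw [abs_le]
            constructor <;> linarith
          rw [← sq_abs (d x e - α)]
          exact pow_le_pow_left₀ (abs_nonneg _) h6 2
        have h6 : (1 - t) * d x y ^ 2 + t * (d x e + β) ^ 2 - t * (1 - t) * (α + β) ^ 2 -
            ((1 - s) * d x y ^ 2 + s * d x e ^ 2 - s * (1 - s) * α ^ 2) =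
            (t * β / α) * (d x y ^ 2 - (d x e - α) ^ 2) := by
          rw [hs]; field_simp; ring
        have h7 : 0 ≤ (t * β / α) * (d x y ^ 2 - (d x e - α) ^ 2) :=
          mul_nonneg (div_nonneg (mul_nonneg ht.1 n2) h0.le) (by linarith)
        linarith
    · -- x in B
      have hxy := h.dist' hy hx
      have hxm := h.dist' hm hx
      rw [hd.symm e y, ← hα] at hxy
      rw [hd.symm e m] at hxm
      rw [hxm, hxy, hme]
      have h5 : (d x e - β) ^ 2 ≤ d x z ^ 2 := by
        have h6 : |d x e - β| ≤ d x z := by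
          have h7 := hd.triangle x z e
          have h8 := hd.triangle e x z
          rw [hd.symm z e, ← hβ] at h7
          rw [hd.symm e x, ← hβ] at h8
          rw [abs_le]
          constructor <;> linarith
        rw [← sq_abs (d x e - β)]
        exact pow_le_pow_left₀ (abs_nonneg _) h6 2
      have h6 : (1 - t) * (d x e + α) ^ 2 + t * d x z ^ 2 - t * (1 - t) * (α + β) ^ 2 -
          (d x e + (α - t * (α + β))) ^ 2 = t * (d x z ^ 2 - (d x e - β) ^ 2) := by ring
      have h7 : 0 ≤ t * (d x z ^ 2 - (d x e - β) ^ 2) := mul_nonneg ht.1 (by linarith)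
      linarith
  -- y in A, z in B
  have key3 : ∀ {A B : Set Z}, Glued d A B e → Cat d A → Cat d B → ∀ x ∈ A ∪ B, ∀ y ∈ A, ∀ z ∈ B,
      ∀ t ∈ Icc (0 : ℝ) 1, ∀ m ∈ A ∪ B, TP d t y z m →
      d x m ^ 2 ≤ (1 - t) * d x y ^ 2 + t * d x z ^ 2 - t * (1 - t) * d y z ^ 2 := by
    intro A B h hA hB x hx y hy z hz t ht m hm h1
    rcases hm with hm | hm
    · exact key2 h hA x hx y hy z hz t ht m hm h1
    · have h2 := key2 h.symm hB x (by rwa [union_comm]) z hz y hy (1 - t)
        ⟨by linarith [ht.2], by linarith [ht.1]⟩ m hm (h1.symm hd)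
      rw [hd.symm z y] at h2
      linarith
  intro x hx y hy z hz t ht m hm h1
  rcases hy with hy | hy <;> rcases hz with hz | hz
  · exact key1 h hA x hx y hy z hz t ht m hm h1
  · exact key3 h hA hB x hx y hy z hz t ht m hm h1
  · rw [union_comm] at hx hm
    exact key3 h.symm hB hA x hx y hy z hz t ht m hm h1
  · rw [union_comm] at hx hm
    exact key1 h.symm hB x hx y hy z hz t ht m hm h1

end

end Pool.Agent.H71.Cube
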