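import Mathlib

set_option autoImplicit false

/-!
# The `ℓ^q` norms of the plane, `1 < q < ∞`
-/

namespace Pool.Agent.H71.Cube

open Set

/-- The properties of the norms of `ℝ × ℝ` used below. -/
structure GoodNorm (N : ℝ × ℝ → ℝ) : Prop where
  eq_zero : ∀ v, N v = 0 → v = 0
  smul : ∀ (t : ℝ) (v : ℝ × ℝ), N (t • v) = |t| * N v
  add_le : ∀ u v, N (u + v) ≤ N u + N v
  mono : ∀ a a' b b', |a| ≤ |a'| → |b| ≤ |b'| → N (a, b) ≤ N (a', b')
  strict : ∀ a a' b, |a| < |a'| → N (a, b) < N (a', b)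
  conv : ∀ (u v : ℝ × ℝ) (t : ℝ), t ∈ Icc (0 : ℝ) 1 → N u = t * N (u + v) →
    N v = (1 - t) * N (u + v) → u = t • (u + v)
  one : N (1, 0) = 1
  one' : N (0, 1) = 1

namespace GoodNorm

variable {N : ℝ × ℝ → ℝ}

lemma zero (h : GoodNorm N) : N 0 = 0 := by
  have := h.smul 0 0
  simpa using this

lemma neg (h : GoodNorm N) (v : ℝ × ℝ) : N (-v) = N v := by
  have := h.smul (-1) v
  simpa using this

lemma nonneg (h : GoodNorm N) (v : ℝ × ℝ) : 0 ≤ N v := by
  have h1 := h.add_le v (-v)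
  rw [add_neg_cancel, h.zero, h.neg] at h1
  linarith

lemma sub_comm (h : GoodNorm N) (u v : ℝ × ℝ) : N (u - v) = N (v - u) := by
  rw [← h.neg (u - v), neg_sub]

lemma abs_fst_le (h : GoodNorm N) (v : ℝ × ℝ) : |v.1| ≤ N v := by
  have h1 := h.mono v.1 v.1 0 v.2 le_rfl (by simp)
  have h2 := h.smul v.1 (1, 0)
  rw [h.one, mul_one] at h2
  have h3 : (v.1 • ((1 : ℝ), (0 : ℝ))) = (v.1, 0) := by simp
  rw [h3] at h2
  rw [← h2]
  exact h1

lemma abs_snd_le (h : GoodNorm N) (v : ℝ × ℝ) : |v.2| ≤ N v := by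
  have h1 := h.mono 0 v.1 v.2 v.2 (by simp) le_rfl
  have h2 := h.smul v.2 (0, 1)
  rw [h.one', mul_one] at h2
  have h3 : (v.2 • ((0 : ℝ), (1 : ℝ))) = (0, v.2) := by simp
  rw [h3] at h2
  rw [← h2]
  exact h1

end GoodNorm

/-- The `ℓ^q` norm. -/
noncomputable def nrm (q : ℝ) (v : ℝ × ℝ) : ℝ := (|v.1| ^ q + |v.2| ^ q) ^ (1 / q)

lemma nrm_arg_nonneg (q : ℝ) (v : ℝ × ℝ) : 0 ≤ |v.1| ^ q + |v.2| ^ q := by positivity

lemma nrm_nonneg (q : ℝ) (v : ℝ × ℝ) : 0 ≤ nrm q v := Real.rpow_nonneg (nrm_arg_nonneg q v) _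

lemma nrm_rpow {q : ℝ} (hq : 1 < q) (v : ℝ × ℝ) : nrm q v ^ q = |v.1| ^ q + |v.2| ^ q := by
  unfold nrm
  rw [← Real.rpow_mul (nrm_arg_nonneg q v), one_div, inv_mul_cancel₀ (by linarith), Real.rpow_one]

lemma rpow_inj {q a b : ℝ} (hq : 1 < q) (ha : 0 ≤ a) (hb : 0 ≤ b) (h : a ^ q = b ^ q) : a = b := by
  have : (a ^ q) ^ (1 / q) = (b ^ q) ^ (1 / q) := by rw [h]
  rwa [← Real.rpow_mul ha, ← Real.rpow_mul hb, mul_one_div_cancel (by linarith), Real.rpow_one,
    Real.rpow_one] at this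

/-- Strict convexity of `|x|^q`. -/
lemma abs_rpow_strict {q : ℝ} (hq : 1 < q) {a b t : ℝ} (ht0 : 0 < t) (ht1 : t < 1) (hab : a ≠ b) :
    |t * a + (1 - t) * b| ^ q < t * |a| ^ q + (1 - t) * |b| ^ q := by
  have h1 : |t * a + (1 - t) * b| ≤ t * |a| + (1 - t) * |b| := by
    refine (abs_add_le _ _).trans ?_
    rw [abs_mul, abs_mul, abs_of_pos ht0, abs_of_pos (by linarith : 0 < 1 - t)]
  rcases eq_or_ne |a| |b| with heq | hne
  · have h2 : b = -a := by
      rcases abs_eq_abs.mp heq with h | h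
      · exact absurd h hab
      · linarith
    have ha : a ≠ 0 := by
      intro h0; apply hab; rw [h2, h0]; simp
    have h3 : |t * a + (1 - t) * b| < |a| := by
      rw [h2]
      have : t * a + (1 - t) * -a = (2 * t - 1) * a := by ring
      rw [this, abs_mul]
      have h4 : |2 * t - 1| < 1 := by rw [abs_lt]; constructor <;> linarith
      have h5 : 0 < |a| := abs_pos.mpr ha
      nlinarith
    have h4 : t * |a| ^ q + (1 - t) * |b| ^ q = |a| ^ q := by rw [← heq]; ring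
    rw [h4]
    exact Real.rpow_lt_rpow (abs_nonneg _) h3 (by linarith)
  · have h2 := (strictConvexOn_rpow hq).2 (show |a| ∈ Ici (0 : ℝ) from abs_nonneg a)
      (show |b| ∈ Ici (0 : ℝ) from abs_nonneg b) hne ht0 (by linarith : 0 < 1 - t) (by ring)
    simp only [smul_eq_mul] at h2
    exact (Real.rpow_le_rpow (abs_nonneg _) h1 (by linarith)).trans_lt h2

lemma abs_rpow_conv {q : ℝ} (hq : 1 < q) {a b t : ℝ} (ht0 : 0 < t) (ht1 : t < 1) :
    |t * a + (1 - t) * b| ^ q ≤ t * |a| ^ q + (1 - t) * |b| ^ q := by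
  rcases eq_or_ne a b with h | h
  · rw [h]
    have : t * b + (1 - t) * b = b := by ring
    rw [this]
    apply le_of_eq; ring
  · exact (abs_rpow_strict hq ht0 ht1 h).le

lemma nrm_eq_zero {q : ℝ} (hq : 1 < q) (v : ℝ × ℝ) (h : nrm q v = 0) : v = 0 := by
  have h1 := nrm_rpow hq v
  rw [h, Real.zero_rpow (by linarith)] at h1
  have h2 : |v.1| ^ q = 0 := le_antisymm (by
    have : 0 ≤ |v.2| ^ q := by positivity
    linarith) (by positivity)
  have h3 : |v.2| ^ q = 0 := by rw [h2] at h1; linarith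
  have h4 : |v.1| = 0 := (Real.rpow_eq_zero (abs_nonneg _) (by linarith)).mp h2
  have h5 : |v.2| = 0 := (Real.rpow_eq_zero (abs_nonneg _) (by linarith)).mp h3
  exact Prod.ext (abs_eq_zero.mp h4) (abs_eq_zero.mp h5)

lemma nrm_smul {q : ℝ} (hq : 1 < q) (t : ℝ) (v : ℝ × ℝ) : nrm q (t • v) = |t| * nrm q v := by
  unfold nrm
  simp only [Prod.smul_fst, Prod.smul_snd, smul_eq_mul, abs_mul]
  rw [Real.mul_rpow (abs_nonneg _) (abs_nonneg _), Real.mul_rpow (abs_nonneg _) (abs_nonneg _),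
    ← mul_add, Real.mul_rpow (by positivity) (by positivity), ← Real.rpow_mul (abs_nonneg _),
    mul_one_div_cancel (by linarith), Real.rpow_one]

lemma nrm_add_le {q : ℝ} (hq : 1 < q) (u v : ℝ × ℝ) : nrm q (u + v) ≤ nrm q u + nrm q v := by
  have h := Real.Lp_add_le (Finset.univ : Finset (Fin 2)) ![u.1, u.2] ![v.1, v.2] hq.le
  simpa [nrm, Fin.sum_univ_two] using h

lemma nrm_mono {q : ℝ} (hq : 1 < q) (a a' b b' : ℝ) (h1 : |a| ≤ |a'|) (h2 : |b| ≤ |b'|) :
    nrm q (a, b) ≤ nrm q (a', b') := by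
  unfold nrm
  apply Real.rpow_le_rpow (by positivity)
  · exact add_le_add (Real.rpow_le_rpow (abs_nonneg _) h1 (by linarith))
      (Real.rpow_le_rpow (abs_nonneg _) h2 (by linarith))
  · positivity

lemma nrm_strict {q : ℝ} (hq : 1 < q) (a a' b : ℝ) (h1 : |a| < |a'|) :
    nrm q (a, b) < nrm q (a', b) := by
  unfold nrm
  apply Real.rpow_lt_rpow (by positivity)
  · exact add_lt_add_of_lt_of_le (Real.rpow_lt_rpow (abs_nonneg _) h1 (by linarith)) le_rfl
  · positivity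

lemma nrm_conv {q : ℝ} (hq : 1 < q) (u v : ℝ × ℝ) (t : ℝ) (ht : t ∈ Icc (0 : ℝ) 1)
    (h1 : nrm q u = t * nrm q (u + v)) (h2 : nrm q v = (1 - t) * nrm q (u + v)) :
    u = t • (u + v) := by
  rcases ht.1.eq_or_lt with h0 | h0
  · rw [← h0, zero_mul] at h1
    rw [← h0, nrm_eq_zero hq u h1]; simp
  rcases ht.2.eq_or_lt with h0' | h0'
  · rw [h0', sub_self, zero_mul] at h2
    rw [h0', nrm_eq_zero hq v h2]; simp
  have h0'' : 0 < 1 - t := by linarith
  set a : ℝ × ℝ := t⁻¹ • u with ha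
  set b : ℝ × ℝ := (1 - t)⁻¹ • v with hb
  have hu : u = t • a := by rw [ha, smul_smul, mul_inv_cancel₀ h0.ne', one_smul]
  have hv : v = (1 - t) • b := by rw [hb, smul_smul, mul_inv_cancel₀ h0''.ne', one_smul]
  have hna : nrm q a = nrm q (u + v) := by
    rw [ha, nrm_smul hq, h1, abs_of_pos (inv_pos.mpr h0)]; field_simp
  have hnb : nrm q b = nrm q (u + v) := by
    rw [hb, nrm_smul hq, h2, abs_of_pos (inv_pos.mpr h0'')]; field_simp
  have e1 := nrm_rpow hq a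
  have e2 := nrm_rpow hq b
  have e3 := nrm_rpow hq (u + v)
  rw [hna] at e1
  rw [hnb] at e2
  have f1 : (u + v).1 = t * a.1 + (1 - t) * b.1 := by
    rw [hu, hv]; simp
  have f2 : (u + v).2 = t * a.2 + (1 - t) * b.2 := by
    rw [hu, hv]; simp
  rw [f1, f2] at e3
  have g1 := abs_rpow_conv hq (a := a.1) (b := b.1) h0 h0'
  have g2 := abs_rpow_conv hq (a := a.2) (b := b.2) h0 h0'
  have k1 : a.1 = b.1 := by
    by_contra hne
    have := abs_rpow_strict hq h0 h0' hne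
    nlinarith
  have k2 : a.2 = b.2 := by
    by_contra hne
    have := abs_rpow_strict hq h0 h0' hne
    nlinarith
  have hab : a = b := Prod.ext k1 k2
  have huv : u + v = a := by
    conv_lhs => rw [hu, hv, ← hab, ← add_smul]
    simp
  rw [huv, ← hu]

lemma nrm_one {q : ℝ} (hq : 1 < q) : nrm q (1, 0) = 1 := by
  unfold nrm
  simp [Real.zero_rpow (by linarith : q ≠ 0)]

lemma nrm_one' {q : ℝ} (hq : 1 < q) : nrm q (0, 1) = 1 := by
  unfold nrm
  simp [Real.zero_rpow (by linarith : q ≠ 0)]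

theorem goodNorm_nrm {q : ℝ} (hq : 1 < q) : GoodNorm (nrm q) where
  eq_zero := nrm_eq_zero hq
  smul := nrm_smul hq
  add_le := nrm_add_le hq
  mono := nrm_mono hq
  strict := nrm_strict hq
  conv := nrm_conv hq
  one := nrm_one hq
  one' := nrm_one' hq

lemma nrm_two_sq (v : ℝ × ℝ) : nrm 2 v ^ 2 = v.1 ^ 2 + v.2 ^ 2 := by
  have h := nrm_rpow (q := 2) (by norm_num) v
  simpa using h

end Pool.Agent.H71.Cube
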