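import Mathlib
import Pool.Agent.H71.Cube.Glue
import Pool.Agent.H71.Cube.Norm

set_option autoImplicit false

/-!
# The tree of squares
-/

namespace Pool.Agent.H71.Cube

open Set

/-- The letters: the first component is the type (`true`: the square is crossed along its diagonal,
`false`: along a side), the second one distinguishes two copies. -/
abbrev Letter := Bool × Bool

/-- Words. -/
abbrev Word := List Letter

/-- The far corner of a square of the given type; the near corner is `(0, 0)`. -/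
def corner (i : Letter) : ℝ × ℝ := (1, if i.1 then 1 else 0)

/-- The far corner of the square indexed by the nonempty word `w`. -/
def cc (w : Word) : ℝ × ℝ := w.getLast?.elim 0 corner

lemma cc_nil : cc [] = 0 := rfl

lemma cc_append (u : Word) (i : Letter) : cc (u ++ [i]) = corner i := by
  simp [cc]

lemma corner_ne_zero (i : Letter) : corner i ≠ 0 := by
  intro h
  have := congrArg Prod.fst h
  simp [corner] at this

/-- The ambient space: finitely supported functions on words with values in the plane. -/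
abbrev Z := Word →₀ ℝ × ℝ

open Classical in
/-- The vertex of the tree given by the word `v`. -/
noncomputable def V (v : Word) : Z :=
  Finsupp.onFinset v.inits.toFinset (fun w => if w <+: v then cc w else 0) (by
    intro w hw
    rw [List.mem_toFinset, List.mem_inits]
    by_contra h
    exact hw (if_neg h))

open Classical in
lemma V_apply (v w : Word) : V v w = if w <+: v then cc w else 0 := rfl

lemma V_of_prefix {v w : Word} (h : w <+: v) : V v w = cc w := by
  rw [V_apply, if_pos h]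

lemma V_of_not_prefix {v w : Word} (h : ¬ w <+: v) : V v w = 0 := by
  rw [V_apply, if_neg h]

lemma V_nil : V [] = 0 := by
  ext1 w
  by_cases h : w <+: []
  · rw [V_of_prefix h, List.prefix_nil.mp h, cc_nil]; rfl
  · rw [V_of_not_prefix h]; rfl

lemma V_nil_apply (v : Word) : V v [] = 0 := by
  rw [V_of_prefix (List.nil_prefix), cc_nil]

lemma not_prefix_self (u : Word) (i : Letter) : ¬ (u ++ [i]) <+: u := by
  intro h
  have := h.length_le
  simp at this

/-- The point with coordinates `s` in the square `(u, i)`. -/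
noncomputable def pt (u : Word) (i : Letter) (s : ℝ × ℝ) : Z :=
  V u + Finsupp.single (u ++ [i]) s

lemma pt_apply_self (u : Word) (i : Letter) (s : ℝ × ℝ) : pt u i s (u ++ [i]) = s := by
  simp [pt, V_of_not_prefix (not_prefix_self u i)]

lemma pt_apply_ne {u w : Word} {i : Letter} (s : ℝ × ℝ) (h : w ≠ u ++ [i]) :
    pt u i s w = V u w := by
  simp [pt, h.symm]

lemma pt_zero (u : Word) (i : Letter) : pt u i 0 = V u := by simp [pt]

lemma V_append (u : Word) (i : Letter) : V (u ++ [i]) = pt u i (corner i) := by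
  ext1 w
  by_cases h : w = u ++ [i]
  · subst h
    rw [V_of_prefix (List.prefix_refl _), cc_append, pt_apply_self]
  · rw [pt_apply_ne _ h]
    by_cases h' : w <+: u
    · rw [V_of_prefix h', V_of_prefix (h'.trans (List.prefix_append _ _))]
    · rw [V_of_not_prefix h', V_of_not_prefix]
      rw [List.prefix_concat_iff]
      push Not
      exact ⟨h, h'⟩

/-- The unit square. -/
def sq : Set (ℝ × ℝ) := {s | 0 ≤ s.1 ∧ s.1 ≤ 1 ∧ 0 ≤ s.2 ∧ s.2 ≤ 1}

lemma zero_mem_sq : (0 : ℝ × ℝ) ∈ sq := by simp [sq]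

lemma corner_mem_sq (i : Letter) : corner i ∈ sq := by
  rcases i with ⟨a, b⟩
  cases a <;> simp [sq, corner]

lemma sq_comb {s s' : ℝ × ℝ} (hs : s ∈ sq) (hs' : s' ∈ sq) {t : ℝ} (ht : t ∈ Icc (0 : ℝ) 1) :
    s + t • (s' - s) ∈ sq := by
  obtain ⟨a1, a2, a3, a4⟩ := hs
  obtain ⟨b1, b2, b3, b4⟩ := hs'
  obtain ⟨t0, t1⟩ := ht
  simp only [sq, mem_ofPred_eq, Prod.fst_add, Prod.smul_fst, Prod.fst_sub, Prod.snd_add,
    Prod.smul_snd, Prod.snd_sub, smul_eq_mul]
  refine ⟨?_, ?_, ?_, ?_⟩ <;> nlinarith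

/-- The `ℓ^1`-sum over the words of the norms `N` of the differences. -/
noncomputable def D (N : ℝ × ℝ → ℝ) (x y : Z) : ℝ := ∑ w ∈ (x - y).support, N (x w - y w)

lemma D_eq {N : ℝ × ℝ → ℝ} (hN : GoodNorm N) (x y : Z) (F : Finset Word)
    (h : ∀ w, w ∉ F → x w = y w) : D N x y = ∑ w ∈ F, N (x w - y w) := by
  unfold D
  apply Finset.sum_subset
  · intro w hw
    by_contra hF
    rw [Finsupp.mem_support_iff] at hw
    apply hw
    rw [Finsupp.sub_apply, h w hF, sub_self]
  · intro w _ hw
    rw [Finsupp.notMem_support_iff, Finsupp.sub_apply] at hw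
    rw [hw, hN.zero]

lemma D_eq' {N : ℝ × ℝ → ℝ} (hN : GoodNorm N) (x y : Z) (F : Finset Word)
    (h : x.support ∪ y.support ⊆ F) : D N x y = ∑ w ∈ F, N (x w - y w) := by
  apply D_eq hN
  intro w hw
  have h1 : w ∉ x.support := fun h' => hw (h (Finset.mem_union_left _ h'))
  have h2 : w ∉ y.support := fun h' => hw (h (Finset.mem_union_right _ h'))
  rw [Finsupp.notMem_support_iff] at h1 h2
  rw [h1, h2]

theorem isMetric_D {N : ℝ × ℝ → ℝ} (hN : GoodNorm N) : IsMetric (D N) where
  eq_iff := by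
    intro x y
    constructor
    · intro h
      unfold D at h
      rw [Finset.sum_eq_zero_iff_of_nonneg (fun w _ => hN.nonneg _)] at h
      ext1 w
      by_cases hw : w ∈ (x - y).support
      · exact sub_eq_zero.mp (hN.eq_zero _ (h w hw))
      · rw [Finsupp.notMem_support_iff, Finsupp.sub_apply] at hw
        exact sub_eq_zero.mp hw
    · rintro rfl
      simp [D]
  symm := by
    intro x y
    rw [D_eq' hN x y _ subset_rfl, D_eq' hN y x (x.support ∪ y.support) (by rw [Finset.union_comm])]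
    exact Finset.sum_congr rfl (fun w _ => hN.sub_comm _ _)
  triangle := by
    intro x y z
    set F := x.support ∪ y.support ∪ z.support with hF
    rw [D_eq' hN x z F (by
        rw [hF]; intro w hw; simp only [Finset.mem_union] at hw ⊢; tauto),
      D_eq' hN x y F (by
        rw [hF]; intro w hw; simp only [Finset.mem_union] at hw ⊢; tauto),
      D_eq' hN y z F (by
        rw [hF]; intro w hw; simp only [Finset.mem_union] at hw ⊢; tauto),
      ← Finset.sum_add_distrib]
    apply Finset.sum_le_sum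
    intro w _
    have h := hN.add_le (x w - y w) (y w - z w)
    rwa [sub_add_sub_cancel] at h

/-- Adding one new coordinate. -/
lemma D_add_single {N : ℝ × ℝ → ℝ} (hN : GoodNorm N) (a b : Z) (w : Word) (s : ℝ × ℝ)
    (ha : a w = 0) (hb : b w = 0) : D N a (b + Finsupp.single w s) = D N a b + N s := by
  classical
  set F := insert w (a.support ∪ b.support) with hF
  have h1 : D N a b = ∑ w' ∈ F, N (a w' - b w') := D_eq' hN a b F (Finset.subset_insert _ _)
  have h2 : D N a (b + Finsupp.single w s) =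
      ∑ w' ∈ F, N (a w' - (b + Finsupp.single w s) w') := by
    apply D_eq hN
    intro w' hw'
    rw [hF, Finset.mem_insert, Finset.mem_union, Finsupp.mem_support_iff,
      Finsupp.mem_support_iff] at hw'
    push Not at hw'
    obtain ⟨h3, h4, h5⟩ := hw'
    simp [h4, h5, h3.symm]
  rw [h1, h2, ← Finset.add_sum_erase F _ (Finset.mem_insert_self w _),
    ← Finset.add_sum_erase F _ (Finset.mem_insert_self w _)]
  have h3 : N (a w - (b + Finsupp.single w s) w) = N s := by
    simp [ha, hb, hN.neg]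
  have h4 : N (a w - b w) = 0 := by simp [ha, hb, hN.zero]
  rw [h3, h4]
  have h5 : ∑ x ∈ F.erase w, N (a x - (b + Finsupp.single w s) x) =
      ∑ x ∈ F.erase w, N (a x - b x) := by
    apply Finset.sum_congr rfl
    intro x hx
    have : x ≠ w := Finset.ne_of_mem_erase hx
    simp [this.symm]
  rw [h5]; ring

/-- Distances in a square. -/
lemma D_pt {N : ℝ × ℝ → ℝ} (hN : GoodNorm N) (u : Word) (i : Letter) (s s' : ℝ × ℝ) :
    D N (pt u i s) (pt u i s') = N (s - s') := by
  classical
  rw [D_eq hN _ _ {u ++ [i]}]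
  · rw [Finset.sum_singleton, pt_apply_self, pt_apply_self]
  · intro w hw
    rw [Finset.mem_singleton] at hw
    rw [pt_apply_ne _ hw, pt_apply_ne _ hw]

/-- The distance is at least the difference in one coordinate. -/
lemma D_ge {N : ℝ × ℝ → ℝ} (hN : GoodNorm N) (x y : Z) (w : Word) : N (x w - y w) ≤ D N x y := by
  by_cases hw : w ∈ (x - y).support
  · exact Finset.single_le_sum (f := fun w => N (x w - y w)) (fun w _ => hN.nonneg _) hw
  · rw [Finsupp.notMem_support_iff, Finsupp.sub_apply] at hw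
    rw [hw, hN.zero]
    exact (isMetric_D hN).nonneg x y

/-! ### Squares -/

/-- The square `(u, i)`. -/
def Sq (u : Word) (i : Letter) : Set Z := {y | ∃ s ∈ sq, y = pt u i s}

lemma geo_Sq {N : ℝ × ℝ → ℝ} (hN : GoodNorm N) (u : Word) (i : Letter) : Geo (D N) (Sq u i) := by
  rintro x ⟨s, hs, rfl⟩ y ⟨s', hs', rfl⟩ t ht
  refine ⟨pt u i (s + t • (s' - s)), ⟨_, sq_comb hs hs' ht, rfl⟩, ?_, ?_⟩
  · rw [D_pt hN, D_pt hN]
    have : s - (s + t • (s' - s)) = t • (s - s') := by
      rw [smul_sub, smul_sub]; abel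
    rw [this, hN.smul, abs_of_nonneg ht.1]
  · rw [D_pt hN, D_pt hN]
    have : s + t • (s' - s) - s' = (1 - t) • (s - s') := by
      rw [sub_smul, one_smul, smul_sub, smul_sub]; abel
    rw [this, hN.smul, abs_of_nonneg (by linarith [ht.2])]

/-- Intermediate points in a square. -/
lemma TP_Sq {N : ℝ × ℝ → ℝ} (hN : GoodNorm N) {u : Word} {i : Letter} {s s' a : ℝ × ℝ} {t : ℝ}
    (ht : t ∈ Icc (0 : ℝ) 1) (h : TP (D N) t (pt u i s) (pt u i s') (pt u i a)) :
    a = s + t • (s' - s) := by
  obtain ⟨h1, h2⟩ := h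
  rw [D_pt hN, D_pt hN] at h1 h2
  have h3 : (s - a) + (a - s') = s - s' := by abel
  have h4 := hN.conv (s - a) (a - s') t ht (by rw [h3]; exact h1) (by rw [h3]; exact h2)
  rw [h3] at h4
  have h5 : a = s - t • (s - s') := by rw [← h4]; abel
  rw [h5, smul_sub, smul_sub]; abel

lemma tri_Sq {N : ℝ × ℝ → ℝ} (hN : GoodNorm N) (u : Word) (i : Letter) : Tri (D N) (Sq u i) := by
  rintro x ⟨s, hs, rfl⟩ y ⟨s1, hs1, rfl⟩ z ⟨s2, hs2, rfl⟩ t ht m ⟨a, ha, rfl⟩ m' ⟨a', ha', rfl⟩ h h'
  have e1 := TP_Sq hN ht h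
  have e2 := TP_Sq hN ht h'
  rw [D_pt hN, D_pt hN, e1, e2]
  have : s + t • (s1 - s) - (s + t • (s2 - s)) = t • (s1 - s2) := by
    simp only [smul_sub]; abel
  rw [this, hN.smul, abs_of_nonneg ht.1]

lemma cat_Sq (u : Word) (i : Letter) : Cat (D (nrm 2)) (Sq u i) := by
  have hN := goodNorm_nrm (q := 2) (by norm_num)
  rintro x ⟨s, hs, rfl⟩ y ⟨s1, hs1, rfl⟩ z ⟨s2, hs2, rfl⟩ t ht m ⟨a, ha, rfl⟩ h
  have e1 := TP_Sq hN ht h
  rw [D_pt hN, D_pt hN, D_pt hN, D_pt hN, e1, nrm_two_sq, nrm_two_sq, nrm_two_sq, nrm_two_sq]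
  simp only [Prod.fst_sub, Prod.snd_sub, Prod.fst_add, Prod.snd_add, Prod.smul_fst, Prod.smul_snd,
    smul_eq_mul]
  apply le_of_eq
  ring

/-! ### Finite unions of squares -/

/-- Reduced words. -/
def Red (w : Word) : Prop := w.IsChain (· ≠ ·)

/-- Union of the squares indexed by `S`, with the origin. -/
def U (S : Finset (Word × Letter)) : Set Z :=
  {y | y = 0 ∨ ∃ u i, (u, i) ∈ S ∧ y ∈ Sq u i}

/-- `S` is closed under parents. -/
def PClosed (S : Finset (Word × Letter)) : Prop :=
  ∀ u j i, (u ++ [j], i) ∈ S → (u, j) ∈ S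

lemma U_insert {S : Finset (Word × Letter)} {u : Word} {i : Letter} (h : (u, i) ∈ S) :
    U S = U (S.erase (u, i)) ∪ Sq u i := by
  ext y
  constructor
  · rintro (h0 | ⟨v, j, hv, hy⟩)
    · exact Or.inl (Or.inl h0)
    · by_cases hvj : (v, j) = (u, i)
      · obtain ⟨rfl, rfl⟩ := Prod.mk.inj hvj
        exact Or.inr hy
      · exact Or.inl (Or.inr ⟨v, j, Finset.mem_erase.mpr ⟨hvj, hv⟩, hy⟩)
  · rintro ((h0 | ⟨v, j, hv, hy⟩) | hy)
    · exact Or.inl h0
    · exact Or.inr ⟨v, j, Finset.mem_of_mem_erase hv, hy⟩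
    · exact Or.inr ⟨u, i, h, hy⟩

lemma V_mem_Sq (u : Word) (i : Letter) : V u ∈ Sq u i := ⟨0, zero_mem_sq, (pt_zero u i).symm⟩

lemma V_append_mem_Sq (u : Word) (i : Letter) : V (u ++ [i]) ∈ Sq u i :=
  ⟨corner i, corner_mem_sq i, V_append u i⟩

/-- The three properties hold on finite unions. -/
theorem finite_union {N : ℝ × ℝ → ℝ} (hN : GoodNorm N) (n : ℕ) :
    ∀ S : Finset (Word × Letter), S.card = n → PClosed S →
      Geo (D N) (U S) ∧ Tri (D N) (U S) ∧ ((∀ u i, Cat (D N) (Sq u i)) → Cat (D N) (U S)) := by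
  have hd := isMetric_D hN
  induction n with
  | zero =>
    intro S hS _
    rw [Finset.card_eq_zero] at hS
    subst hS
    have hU : U ∅ = {(0 : Z)} := by
      ext y
      simp [U]
    rw [hU]
    refine ⟨?_, ?_, ?_⟩
    · rintro x rfl y rfl t _
      exact ⟨0, rfl, by rw [hd.self]; simp, by rw [hd.self]; simp⟩
    · rintro x rfl y rfl z rfl t _ m rfl m' rfl _ _
      rw [hd.self]; simp
    · rintro _ x rfl y rfl z rfl t _ m rfl _
      rw [hd.self]; simp
  | succ n ih =>
    intro S hS hP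
    -- choose a square of maximal length
    have hne : S.Nonempty := by
      rw [← Finset.card_pos, hS]; omega
    obtain ⟨⟨u, i⟩, hui, hmax⟩ := S.exists_max_image (fun p => p.1.length) hne
    have hmax' : ∀ v j, (v, j) ∈ S → v.length ≤ u.length := fun v j h => hmax (v, j) h
    have hP' : PClosed (S.erase (u, i)) := by
      intro v j k h
      have h1 := Finset.mem_of_mem_erase h
      refine Finset.mem_erase.mpr ⟨?_, hP v j k h1⟩
      intro h2
      obtain ⟨rfl, rfl⟩ := Prod.mk.inj h2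
      have := hmax' _ _ h1
      simp at this
    obtain ⟨ih1, ih2, ih3⟩ := ih (S.erase (u, i)) (by rw [Finset.card_erase_of_mem hui, hS]; rfl) hP'
    have hG : Glued (D N) (U (S.erase (u, i))) (Sq u i) (V u) := by
      refine ⟨hd, ?_, V_mem_Sq u i, ?_⟩
      · rcases List.eq_nil_or_concat u with h | ⟨u', j, h⟩
        · left; rw [h, V_nil]
        · right
          rw [List.concat_eq_append] at h
          refine ⟨u', j, ?_, ?_⟩
          · refine Finset.mem_erase.mpr ⟨?_, hP u' j i (h ▸ hui)⟩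
            intro h2
            have h3 := (Prod.mk.inj h2).1
            rw [h] at h3
            have := congrArg List.length h3
            simp at this
          · rw [h]; exact V_append_mem_Sq u' j
      · rintro a ha b ⟨s, hs, rfl⟩
        have ha0 : a (u ++ [i]) = 0 := by
          rcases ha with rfl | ⟨v, j, hv, ⟨s', hs', rfl⟩⟩
          · rfl
          · have hne : (v, j) ≠ (u, i) := Finset.ne_of_mem_erase hv
            have hlen := hmax' _ _ (Finset.mem_of_mem_erase hv)
            have h1 : u ++ [i] ≠ v ++ [j] := by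
              intro h
              have h' := List.append_inj' h rfl
              apply hne
              rw [Prod.mk.injEq]
              exact ⟨h'.1.symm, by simpa using h'.2.symm⟩
            rw [pt_apply_ne _ h1, V_of_not_prefix]
            intro h
            have := h.length_le
            simp at this
            omega
        have hb0 : V u (u ++ [i]) = 0 := V_of_not_prefix (not_prefix_self u i)
        unfold pt
        rw [D_add_single hN a (V u) _ s ha0 hb0, D_add_single hN (V u) (V u) _ s hb0 hb0, hd.self,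
          zero_add]
    rw [U_insert hui]
    refine ⟨hG.geo ih1 (geo_Sq hN u i), hG.tri ih1 ih2 (geo_Sq hN u i) (tri_Sq hN u i), ?_⟩
    intro hcat
    exact hG.cat (ih3 hcat) (hcat u i)

/-! ### The tree of squares -/

/-- The tree of squares. -/
def YS : Set Z := {y | ∃ u i, Red (u ++ [i]) ∧ y ∈ Sq u i}

open Classical in
/-- The squares on the way from the origin to the square `(u, i)`. -/
noncomputable def anc (w : Word) : Finset (Word × Letter) :=
  (w.inits.toFinset ×ˢ Finset.univ).filter (fun p => p.1 ++ [p.2] <+: w)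

lemma mem_anc {w v : Word} {j : Letter} : (v, j) ∈ anc w ↔ v ++ [j] <+: w := by
  unfold anc
  simp only [Finset.mem_filter, Finset.mem_product, List.mem_toFinset, List.mem_inits,
    Finset.mem_univ, and_true, and_iff_right_iff_imp]
  intro h
  exact (List.prefix_append _ _).trans h

lemma pclosed_anc (w : Word) : PClosed (anc w) := by
  intro u j i h
  rw [mem_anc] at h ⊢
  exact (List.prefix_append _ _).trans h

lemma pclosed_union {S T : Finset (Word × Letter)} (hS : PClosed S) (hT : PClosed T) :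
    PClosed (S ∪ T) := by
  intro u j i h
  rw [Finset.mem_union] at h ⊢
  rcases h with h | h
  · exact Or.inl (hS u j i h)
  · exact Or.inr (hT u j i h)

lemma Red.of_prefix {v w : Word} (h : v <+: w) (hw : Red w) : Red v := by
  obtain ⟨t, rfl⟩ := h
  exact (List.isChain_append.mp hw).1

/-- All squares of `S` belong to the tree. -/
def RedS (S : Finset (Word × Letter)) : Prop := ∀ u i, (u, i) ∈ S → Red (u ++ [i])

lemma U_mono {S T : Finset (Word × Letter)} (h : S ⊆ T) : U S ⊆ U T := by
  rintro y (h0 | ⟨u, i, hu, hy⟩)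
  · exact Or.inl h0
  · exact Or.inr ⟨u, i, h hu, hy⟩

lemma zero_mem_YS : (0 : Z) ∈ YS := by
  refine ⟨[], (true, true), ?_, ?_⟩
  · simp [Red]
  · have := V_mem_Sq [] (true, true)
    rwa [V_nil] at this

lemma U_subset {S : Finset (Word × Letter)} (h : RedS S) : U S ⊆ YS := by
  rintro y (rfl | ⟨u, i, hu, hy⟩)
  · exact zero_mem_YS
  · exact ⟨u, i, h u i hu, hy⟩

/-- Every point of the tree of squares lies in a finite subtree. -/
lemma exists_fin {y : Z} (hy : y ∈ YS) : ∃ S, PClosed S ∧ RedS S ∧ y ∈ U S := by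
  obtain ⟨u, i, hr, h⟩ := hy
  refine ⟨anc (u ++ [i]), pclosed_anc _, ?_, Or.inr ⟨u, i, ?_, h⟩⟩
  · intro v j hv
    rw [mem_anc] at hv
    exact hr.of_prefix hv
  · rw [mem_anc]

lemma exists_fin_union {S T : Finset (Word × Letter)} (h : PClosed S ∧ RedS S)
    (h' : PClosed T ∧ RedS T) : PClosed (S ∪ T) ∧ RedS (S ∪ T) := by
  refine ⟨pclosed_union h.1 h'.1, ?_⟩
  intro u i hu
  rw [Finset.mem_union] at hu
  rcases hu with hu | hu
  · exact h.2 u i hu
  · exact h'.2 u i hu

theorem geo_YS {N : ℝ × ℝ → ℝ} (hN : GoodNorm N) : Geo (D N) YS := by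
  intro x hx y hy t ht
  obtain ⟨S, hS1, hS2, hxS⟩ := exists_fin hx
  obtain ⟨T, hT1, hT2, hyT⟩ := exists_fin hy
  have hST := exists_fin_union ⟨hS1, hS2⟩ ⟨hT1, hT2⟩
  obtain ⟨hG, _, _⟩ := finite_union hN _ (S ∪ T) rfl hST.1
  obtain ⟨m, hm, h⟩ := hG x (U_mono Finset.subset_union_left hxS) y
    (U_mono Finset.subset_union_right hyT) t ht
  exact ⟨m, U_subset hST.2 hm, h⟩

/-- Five points of the tree of squares lie in one finite subtree. -/
lemma exists_fin5 {a b c e f : Z} (ha : a ∈ YS) (hb : b ∈ YS) (hc : c ∈ YS) (he : e ∈ YS)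
    (hf : f ∈ YS) : ∃ S, PClosed S ∧ a ∈ U S ∧ b ∈ U S ∧ c ∈ U S ∧ e ∈ U S ∧ f ∈ U S := by
  obtain ⟨S1, h1, h1', m1⟩ := exists_fin ha
  obtain ⟨S2, h2, h2', m2⟩ := exists_fin hb
  obtain ⟨S3, h3, h3', m3⟩ := exists_fin hc
  obtain ⟨S4, h4, h4', m4⟩ := exists_fin he
  obtain ⟨S5, h5, h5', m5⟩ := exists_fin hf
  refine ⟨S1 ∪ S2 ∪ S3 ∪ S4 ∪ S5,
    pclosed_union (pclosed_union (pclosed_union (pclosed_union h1 h2) h3) h4) h5,
    U_mono ?_ m1, U_mono ?_ m2, U_mono ?_ m3, U_mono ?_ m4, U_mono ?_ m5⟩ <;>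
  · intro x hx
    simp only [Finset.mem_union]
    tauto

theorem tri_YS {N : ℝ × ℝ → ℝ} (hN : GoodNorm N) : Tri (D N) YS := by
  intro x hx y hy z hz t ht m hm m' hm' h h'
  obtain ⟨S, hS, h1, h2, h3, h4, h5⟩ := exists_fin5 hx hy hz hm hm'
  exact (finite_union hN _ S rfl hS).2.1 x h1 y h2 z h3 t ht m h4 m' h5 h h'

theorem cat_YS : Cat (D (nrm 2)) YS := by
  intro x hx y hy z hz t ht m hm h
  obtain ⟨S, hS, h1, h2, h3, h4, _⟩ := exists_fin5 hx hy hz hm hm
  exact (finite_union (goodNorm_nrm (q := 2) (by norm_num)) _ S rfl hS).2.2 cat_Sq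
    x h1 y h2 z h3 t ht m h4 h

end Pool.Agent.H71.Cube
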