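import Mathlib
import Pool.Agent.H71.Cube.Tree

set_option autoImplicit false

/-!
# The product of the tree of squares with the line
-/

namespace Pool.Agent.H71.Cube

open Set

/-- The product of the tree of squares with the line. -/
abbrev XX : Type := {p : Z × ℝ // p.1 ∈ YS}

/-- The `N`-product metric. -/
noncomputable def dX (N : ℝ × ℝ → ℝ) (x y : XX) : ℝ := N (D N x.1.1 y.1.1, x.1.2 - y.1.2)

theorem isMetric_dX {N : ℝ × ℝ → ℝ} (hN : GoodNorm N) : IsMetric (dX N) where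
  eq_iff := by
    intro x y
    constructor
    · intro h
      have h1 := hN.eq_zero _ h
      have h2 : D N x.1.1 y.1.1 = 0 := congrArg Prod.fst h1
      have h3 : x.1.2 - y.1.2 = 0 := congrArg Prod.snd h1
      exact Subtype.ext (Prod.ext (((isMetric_D hN).eq_iff _ _).mp h2) (sub_eq_zero.mp h3))
    · rintro rfl
      unfold dX
      rw [(isMetric_D hN).self, sub_self]
      exact hN.zero
  symm := by
    intro x y
    unfold dX
    rw [(isMetric_D hN).symm]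
    apply le_antisymm
    · apply hN.mono _ _ _ _ le_rfl; rw [abs_sub_comm]
    · apply hN.mono _ _ _ _ le_rfl; rw [abs_sub_comm]
  triangle := by
    intro x y z
    unfold dX
    have hD := isMetric_D hN
    have h1 := hN.add_le (D N x.1.1 y.1.1, x.1.2 - y.1.2) (D N y.1.1 z.1.1, y.1.2 - z.1.2)
    refine le_trans ?_ h1
    simp only [Prod.mk_add_mk]
    apply hN.mono
    · rw [abs_of_nonneg (hD.nonneg _ _), abs_of_nonneg (add_nonneg (hD.nonneg _ _) (hD.nonneg _ _))]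
      exact hD.triangle _ _ _
    · rw [sub_add_sub_cancel]

lemma D_le_dX {N : ℝ × ℝ → ℝ} (hN : GoodNorm N) (x y : XX) : D N x.1.1 y.1.1 ≤ dX N x y :=
  (le_abs_self _).trans (hN.abs_fst_le (D N x.1.1 y.1.1, x.1.2 - y.1.2))

lemma abs_sub_le_dX {N : ℝ × ℝ → ℝ} (hN : GoodNorm N) (x y : XX) : |x.1.2 - y.1.2| ≤ dX N x y :=
  hN.abs_snd_le (D N x.1.1 y.1.1, x.1.2 - y.1.2)

/-- Intermediate points in the product. -/
theorem TP_dX {N : ℝ × ℝ → ℝ} (hN : GoodNorm N) {t : ℝ} (ht : t ∈ Icc (0 : ℝ) 1) {x y m : XX} :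
    TP (dX N) t x y m ↔ TP (D N) t x.1.1 y.1.1 m.1.1 ∧ m.1.2 = x.1.2 + t * (y.1.2 - x.1.2) := by
  have hD := isMetric_D hN
  constructor
  · rintro ⟨h1, h2⟩
    set a := D N x.1.1 m.1.1 with ha
    set b := D N m.1.1 y.1.1 with hb
    set c := D N x.1.1 y.1.1 with hc
    have ha0 : 0 ≤ a := hD.nonneg _ _
    have hb0 : 0 ≤ b := hD.nonneg _ _
    have hc0 : 0 ≤ c := hD.nonneg _ _
    have habc : c ≤ a + b := hD.triangle _ _ _
    have e1 : dX N x m = N (a, x.1.2 - m.1.2) := rfl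
    have e2 : dX N m y = N (b, m.1.2 - y.1.2) := rfl
    have e3 : dX N x y = N (c, x.1.2 - y.1.2) := rfl
    have hsum : ((a, x.1.2 - m.1.2) : ℝ × ℝ) + (b, m.1.2 - y.1.2) = (a + b, x.1.2 - y.1.2) := by
      rw [Prod.mk_add_mk, sub_add_sub_cancel]
    have h3 : N (a + b, x.1.2 - y.1.2) ≤ N (c, x.1.2 - y.1.2) := by
      have h4 := hN.add_le (a, x.1.2 - m.1.2) (b, m.1.2 - y.1.2)
      rw [hsum, ← e1, ← e2, h1, h2] at h4
      rw [← e3]; linarith
    have h4 : a + b = c := by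
      by_contra hne
      have hlt : c < a + b := lt_of_le_of_ne habc (Ne.symm hne)
      have := hN.strict c (a + b) (x.1.2 - y.1.2) (by
        rw [abs_of_nonneg hc0, abs_of_nonneg (by linarith)]; exact hlt)
      linarith
    have h5 := hN.conv (a, x.1.2 - m.1.2) (b, m.1.2 - y.1.2) t ht
      (by rw [hsum, h4, ← e1, ← e3]; exact h1) (by rw [hsum, h4, ← e2, ← e3]; exact h2)
    rw [hsum, h4] at h5
    have h6 : a = t * c := by simpa using congrArg Prod.fst h5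
    have h7 : x.1.2 - m.1.2 = t * (x.1.2 - y.1.2) := by simpa using congrArg Prod.snd h5
    refine ⟨⟨h6, ?_⟩, by linarith⟩
    linarith
  · rintro ⟨⟨h1, h2⟩, h3⟩
    have key : ∀ (s : ℝ) (v : ℝ × ℝ), 0 ≤ s → N (s * v.1, s * v.2) = s * N v := by
      intro s v hs
      have := hN.smul s v
      rw [abs_of_nonneg hs] at this
      rw [← this]; rfl
    constructor
    · unfold dX
      rw [h1, h3, ← key t (D N x.1.1 y.1.1, x.1.2 - y.1.2) ht.1]
      congr 2
      ring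
    · unfold dX
      rw [h2, h3, ← key (1 - t) (D N x.1.1 y.1.1, x.1.2 - y.1.2) (by linarith [ht.2])]
      congr 2
      ring

theorem geo_dX {N : ℝ × ℝ → ℝ} (hN : GoodNorm N) : Geo (dX N) univ := by
  intro x _ y _ t ht
  obtain ⟨m, hm, h⟩ := geo_YS hN x.1.1 x.2 y.1.1 y.2 t ht
  exact ⟨⟨(m, x.1.2 + t * (y.1.2 - x.1.2)), hm⟩, mem_univ _, (TP_dX hN ht).mpr ⟨h, rfl⟩⟩

theorem tri_dX {N : ℝ × ℝ → ℝ} (hN : GoodNorm N) : Tri (dX N) univ := by
  intro x _ y _ z _ t ht m _ m' _ h h'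
  rw [TP_dX hN ht] at h h'
  have h1 := tri_YS hN x.1.1 x.2 y.1.1 y.2 z.1.1 z.2 t ht m.1.1 m.2 m'.1.1 m'.2 h.1 h'.1
  have h2 : m.1.2 - m'.1.2 = t * (y.1.2 - z.1.2) := by rw [h.2, h'.2]; ring
  have hD := isMetric_D hN
  have h3 := hN.smul t (D N y.1.1 z.1.1, y.1.2 - z.1.2)
  rw [abs_of_nonneg ht.1] at h3
  show N (D N m.1.1 m'.1.1, m.1.2 - m'.1.2) ≤ t * N (D N y.1.1 z.1.1, y.1.2 - z.1.2)
  rw [← h3, h2]
  apply hN.mono
  · rw [abs_of_nonneg (hD.nonneg _ _)]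
    exact h1.trans (le_abs_self _)
  · exact le_rfl

theorem cat_dX : Cat (dX (nrm 2)) univ := by
  have hN := goodNorm_nrm (q := 2) (by norm_num)
  intro x _ y _ z _ t ht m _ h
  rw [TP_dX hN ht] at h
  have h1 := cat_YS x.1.1 x.2 y.1.1 y.2 z.1.1 z.2 t ht m.1.1 m.2 h.1
  unfold dX
  rw [nrm_two_sq, nrm_two_sq, nrm_two_sq, nrm_two_sq, h.2]
  simp only
  nlinarith

/-- Busemann convexity. -/
theorem bus_dX {N : ℝ × ℝ → ℝ} (hN : GoodNorm N) {x y x' y' m m' : XX} {t : ℝ}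
    (ht : t ∈ Icc (0 : ℝ) 1) (h : TP (dX N) t x y m) (h' : TP (dX N) t x' y' m') :
    dX N m m' ≤ (1 - t) * dX N x x' + t * dX N y y' := by
  have hd := isMetric_dX hN
  obtain ⟨q, _, hq⟩ := geo_dX hN x (mem_univ _) y' (mem_univ _) t ht
  have h1 := tri_dX hN x (mem_univ _) y (mem_univ _) y' (mem_univ _) t ht m (mem_univ _) q
    (mem_univ _) h hq
  have h2 := tri_dX hN y' (mem_univ _) x (mem_univ _) x' (mem_univ _) (1 - t)
    ⟨by linarith [ht.2], by linarith [ht.1]⟩ q (mem_univ _) m' (mem_univ _)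
    (hq.symm hd) (h'.symm hd)
  have h3 := hd.triangle m q m'
  linarith

end Pool.Agent.H71.Cube
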