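import Mathlib
import Pool.Agent.H71.Cube.Prod

set_option autoImplicit false

/-!
# The cube complex structure on the product
-/

namespace Pool.Agent.H71.Cube

open Set

/-- Index set of the squares of the tree. -/
abbrev SqIdx : Type := {p : Word × Letter // Red (p.1 ++ [p.2])}

lemma sq_of_unit (a b : unitInterval) : ((a : ℝ), (b : ℝ)) ∈ sq :=
  ⟨a.2.1, a.2.2, b.2.1, b.2.2⟩

/-- The charts. -/
noncomputable def chartX (c : SqIdx × ℤ) (z : UCube 3) : XX :=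
  ⟨(pt c.1.1.1 c.1.1.2 ((z 0 : ℝ), (z 1 : ℝ)), (c.2 : ℝ) + (z 2 : ℝ)),
    ⟨c.1.1.1, c.1.1.2, c.1.2, _, sq_of_unit _ _, rfl⟩⟩

lemma chartX_eq_iff (c c' : SqIdx × ℤ) (a a' : UCube 3) :
    chartX c a = chartX c' a' ↔
      pt c.1.1.1 c.1.1.2 ((a 0 : ℝ), (a 1 : ℝ)) = pt c'.1.1.1 c'.1.1.2 ((a' 0 : ℝ), (a' 1 : ℝ)) ∧
        (c.2 : ℝ) + (a 2 : ℝ) = (c'.2 : ℝ) + (a' 2 : ℝ) := by
  unfold chartX
  rw [Subtype.ext_iff, Prod.ext_iff]

lemma append_ne {u u' : Word} {i i' : Letter} (h : (u, i) ≠ (u', i')) : u ++ [i] ≠ u' ++ [i'] := by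
  intro h'
  have h2 := List.append_inj' h' rfl
  apply h
  rw [Prod.mk.injEq]
  exact ⟨h2.1, by simpa using h2.2⟩

lemma pt_forced {u u' : Word} {i i' : Letter} {s s' : ℝ × ℝ} (hne : (u, i) ≠ (u', i'))
    (h : pt u i s = pt u' i' s') : s = V u' (u ++ [i]) ∧ s' = V u (u' ++ [i']) := by
  constructor
  · have h1 := congrArg (fun f : Z => f (u ++ [i])) h
    simp only [pt_apply_self] at h1
    rw [h1, pt_apply_ne _ (append_ne hne)]
  · have h1 := congrArg (fun f : Z => f (u' ++ [i'])) h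
    simp only [pt_apply_self] at h1
    rw [← h1, pt_apply_ne _ (append_ne hne.symm)]

lemma V_value (v u : Word) (i : Letter) : V v (u ++ [i]) = 0 ∨ V v (u ++ [i]) = corner i := by
  by_cases h : (u ++ [i]) <+: v
  · right; rw [V_of_prefix h, cc_append]
  · left; exact V_of_not_prefix h

lemma value_coord {v u : Word} {i : Letter} :
    ((V v (u ++ [i])).1 = 0 ∨ (V v (u ++ [i])).1 = 1) ∧
      ((V v (u ++ [i])).2 = 0 ∨ (V v (u ++ [i])).2 = 1) := by
  rcases V_value v u i with h | h <;> rw [h]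
  · simp
  · rcases i with ⟨a, b⟩
    cases a <;> simp [corner]

lemma real_forced {n n' : ℤ} {x x' : ℝ} (hx : x ∈ Icc (0 : ℝ) 1) (hx' : x' ∈ Icc (0 : ℝ) 1)
    (hne : n ≠ n') (h : (n : ℝ) + x = n' + x') :
    (x = 1 ∧ x' = 0 ∧ n < n') ∨ (x = 0 ∧ x' = 1 ∧ n' < n) := by
  rcases lt_or_gt_of_ne hne with hlt | hlt
  · left
    have h1 : (n : ℝ) + 1 ≤ n' := by exact_mod_cast hlt
    have := hx.2
    have := hx'.1
    exact ⟨by linarith, by linarith, hlt⟩
  · right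
    have h1 : (n' : ℝ) + 1 ≤ n := by exact_mod_cast hlt
    have := hx.1
    have := hx'.2
    exact ⟨by linarith, by linarith, hlt⟩

/-- The coordinates which are fixed in the intersection of two cubes. -/
def fixedSet (c c' : SqIdx × ℤ) : Set (Fin 3) := {i | if i = 2 then c.2 ≠ c'.2 else c.1 ≠ c'.1}

lemma mem_fixed0 {c c' : SqIdx × ℤ} : (0 : Fin 3) ∈ fixedSet c c' ↔ c.1 ≠ c'.1 := by
  simp [fixedSet]

lemma mem_fixed1 {c c' : SqIdx × ℤ} : (1 : Fin 3) ∈ fixedSet c c' ↔ c.1 ≠ c'.1 := by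
  simp [fixedSet]

lemma mem_fixed2 {c c' : SqIdx × ℤ} : (2 : Fin 3) ∈ fixedSet c c' ↔ c.2 ≠ c'.2 := by
  simp [fixedSet]

lemma forall_fin3 {P : Fin 3 → Prop} : (∀ i, P i) ↔ P 0 ∧ P 1 ∧ P 2 := by
  constructor
  · intro h; exact ⟨h 0, h 1, h 2⟩
  · rintro ⟨h0, h1, h2⟩ i
    fin_cases i
    · exact h0
    · exact h1
    · exact h2

lemma sqIdx_ne {c c' : SqIdx} (h : c ≠ c') : (c.1.1, c.1.2) ≠ (c'.1.1, c'.1.2) := by
  intro h'
  exact h (Subtype.ext h')

lemma inter_Y {e e' : SqIdx} {s s' : ℝ × ℝ}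
    (hp : pt e.1.1 e.1.2 s = pt e'.1.1 e'.1.2 s') (a a' : ℝ × ℝ) :
    pt e.1.1 e.1.2 a = pt e'.1.1 e'.1.2 a' ↔
      (e ≠ e' → a = s ∧ a' = s') ∧ (e = e' → a = a') := by
  by_cases hc : e = e'
  · subst hc
    constructor
    · intro h
      refine ⟨fun h' => absurd rfl h', fun _ => ?_⟩
      have h1 := congrArg (fun f : Z => f (e.1.1 ++ [e.1.2])) h
      simpa only [pt_apply_self] using h1
    · rintro ⟨_, h⟩
      rw [h rfl]
  · have hne := sqIdx_ne hc
    obtain ⟨e1, e2⟩ := pt_forced hne hp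
    constructor
    · intro h
      obtain ⟨e3, e4⟩ := pt_forced hne h
      exact ⟨fun _ => ⟨e3.trans e1.symm, e4.trans e2.symm⟩, fun h' => absurd h' hc⟩
    · rintro ⟨h, _⟩
      obtain ⟨h1, h2⟩ := h hc
      rw [h1, h2]
      exact hp

lemma inter_R {n n' : ℤ} {x x' a a' : ℝ} (hx : x ∈ Icc (0 : ℝ) 1) (hx' : x' ∈ Icc (0 : ℝ) 1)
    (ha : a ∈ Icc (0 : ℝ) 1) (ha' : a' ∈ Icc (0 : ℝ) 1) (hr : (n : ℝ) + x = n' + x') :
    (n : ℝ) + a = n' + a' ↔ (n ≠ n' → a = x ∧ a' = x') ∧ (n = n' → a = a') := by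
  by_cases hc : n = n'
  · subst hc
    constructor
    · intro h
      exact ⟨fun h' => absurd rfl h', fun _ => by linarith⟩
    · rintro ⟨_, h⟩
      rw [h rfl]
  · have h1 := real_forced hx hx' hc hr
    constructor
    · intro h
      have h2 := real_forced ha ha' hc h
      refine ⟨fun _ => ?_, fun h' => absurd h' hc⟩
      rcases h1 with ⟨p1, p2, p3⟩ | ⟨p1, p2, p3⟩ <;> rcases h2 with ⟨q1, q2, q3⟩ | ⟨q1, q2, q3⟩
      · exact ⟨by rw [p1, q1], by rw [p2, q2]⟩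
      · omega
      · omega
      · exact ⟨by rw [p1, q1], by rw [p2, q2]⟩
    · rintro ⟨h, _⟩
      obtain ⟨h2, h3⟩ := h hc
      rw [h2, h3]
      exact hr

/-- Characterization of the intersection of two cubes. -/
lemma inter_char {c c' : SqIdx × ℤ} {z z' : UCube 3} (h : chartX c z = chartX c' z')
    (a a' : UCube 3) : chartX c a = chartX c' a' ↔
      (∀ i ∈ fixedSet c c', a i = z i ∧ a' i = z' i) ∧ (∀ i, i ∉ fixedSet c c' → a i = a' i) := by
  rw [chartX_eq_iff] at h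
  obtain ⟨hp, hr⟩ := h
  rw [chartX_eq_iff, inter_Y hp, inter_R (z 2).2 (z' 2).2 (a 2).2 (a' 2).2 hr,
    forall_fin3, forall_fin3, mem_fixed0, mem_fixed1, mem_fixed2]
  simp only [Prod.mk.injEq, Subtype.ext_iff, ne_eq, not_not]
  constructor
  · rintro ⟨⟨h1, h2⟩, ⟨h3, h4⟩⟩
    exact ⟨⟨fun h => ⟨(h1 h).1.1, (h1 h).2.1⟩, fun h => ⟨(h1 h).1.2, (h1 h).2.2⟩, h3⟩,
      ⟨fun h => (h2 h).1, fun h => (h2 h).2, h4⟩⟩
  · rintro ⟨⟨h1, h2, h3⟩, ⟨h4, h5, h6⟩⟩
    exact ⟨⟨fun h => ⟨⟨(h1 h).1, (h2 h).1⟩, ⟨(h1 h).2, (h2 h).2⟩⟩, fun h => ⟨h4 h, h5 h⟩⟩,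
      ⟨h3, h6⟩⟩

lemma chartX_inter (c c' : SqIdx × ℤ) (hex : ∃ z z', chartX c z = chartX c' z') :
    ∃ (T T' : Set (UCube 3)) (h : T ≃ T'), IsFace T ∧ IsFace T' ∧
      (∀ a b : T, cubeDist 2 (h a : UCube 3) (h b : UCube 3) =
        cubeDist 2 (a : UCube 3) (b : UCube 3)) ∧
      ∀ z z', chartX c z = chartX c' z' ↔ ∃ hz : z ∈ T, (h ⟨z, hz⟩ : UCube 3) = z' := by
  classical
  obtain ⟨z, z', hzz⟩ := hex
  have hchar := inter_char hzz
  have hzz' := (chartX_eq_iff c c' z z').mp hzz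
  -- fixed coordinates are 0 or 1
  have hfix : ∀ i ∈ fixedSet c c', (z i = 0 ∨ z i = 1) ∧ (z' i = 0 ∨ z' i = 1) := by
    have hY : c.1 ≠ c'.1 → ((z 0 = 0 ∨ z 0 = 1) ∧ (z' 0 = 0 ∨ z' 0 = 1)) ∧
        ((z 1 = 0 ∨ z 1 = 1) ∧ (z' 1 = 0 ∨ z' 1 = 1)) := by
      intro hc
      obtain ⟨e1, e2⟩ := pt_forced (sqIdx_ne hc) hzz'.1
      have v1 := value_coord (v := c'.1.1.1) (u := c.1.1.1) (i := c.1.1.2)
      have v2 := value_coord (v := c.1.1.1) (u := c'.1.1.1) (i := c'.1.1.2)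
      rw [← e1] at v1
      rw [← e2] at v2
      simp only [Subtype.ext_iff]
      exact ⟨⟨v1.1, v2.1⟩, ⟨v1.2, v2.2⟩⟩
    have hR : c.2 ≠ c'.2 → (z 2 = 0 ∨ z 2 = 1) ∧ (z' 2 = 0 ∨ z' 2 = 1) := by
      intro hc
      have h1 := real_forced (z 2).2 (z' 2).2 hc hzz'.2
      simp only [Subtype.ext_iff]
      rcases h1 with ⟨p1, p2, _⟩ | ⟨p1, p2, _⟩
      · exact ⟨Or.inr p1, Or.inl p2⟩
      · exact ⟨Or.inl p1, Or.inr p2⟩
    rw [forall_fin3, mem_fixed0, mem_fixed1, mem_fixed2]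
    exact ⟨fun h => (hY h).1, fun h => (hY h).2, hR⟩
  let S := fixedSet c c'
  let T : Set (UCube 3) := {a | ∀ i ∈ S, a i = z i}
  let T' : Set (UCube 3) := {a | ∀ i ∈ S, a i = z' i}
  let h : T ≃ T' :=
    { toFun := fun a => ⟨fun i => if i ∈ S then z' i else a.1 i, fun i hi => by simp [hi]⟩
      invFun := fun a => ⟨fun i => if i ∈ S then z i else a.1 i, fun i hi => by simp [hi]⟩
      left_inv := by
        intro a
        apply Subtype.ext
        funext i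
        by_cases hi : i ∈ S
        · simp [hi, a.2 i hi]
        · simp [hi]
      right_inv := by
        intro a
        apply Subtype.ext
        funext i
        by_cases hi : i ∈ S
        · simp [hi, a.2 i hi]
        · simp [hi] }
  refine ⟨T, T', h, ⟨S, z, fun i hi => (hfix i hi).1, rfl⟩, ⟨S, z', fun i hi => (hfix i hi).2, rfl⟩,
    ?_, ?_⟩
  · intro a b
    unfold cubeDist
    congr 2
    funext i
    by_cases hi : i ∈ S
    · have h1 := a.2 i hi
      have h2 := b.2 i hi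
      simp [h, hi, h1, h2]
    · simp [h, hi]
  · intro a a'
    rw [hchar]
    constructor
    · rintro ⟨h1, h2⟩
      refine ⟨fun i hi => (h1 i hi).1, ?_⟩
      funext i
      by_cases hi : i ∈ S
      · simp [h, hi, (h1 i hi).2]
      · simp [h, hi, h2 i hi]
    · rintro ⟨h1, h2⟩
      refine ⟨fun i hi => ⟨h1 i hi, ?_⟩, fun i hi => ?_⟩
      · rw [← h2]
        have : i ∈ S := hi
        simp [h, this]
      · rw [← h2]
        have : i ∉ S := hi
        simp [h, this]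

/-- The cube complex. -/
noncomputable def KX : CubeComplex XX where
  Idx := SqIdx × ℤ
  dim := fun _ => 3
  chart := chartX
  covers := by
    rintro ⟨⟨y, τ⟩, u, i, hr, s, hs, hy⟩
    refine ⟨(⟨(u, i), hr⟩, ⌊τ⌋), ![⟨s.1, hs.1, hs.2.1⟩, ⟨s.2, hs.2.2.1, hs.2.2.2⟩,
      ⟨Int.fract τ, Int.fract_nonneg τ, (Int.fract_lt_one τ).le⟩], ?_⟩
    unfold chartX
    apply Subtype.ext
    apply Prod.ext
    · simp only [Matrix.cons_val_zero, Matrix.cons_val_one]
      exact hy.symm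
    · simp only [Matrix.cons_val]
      exact Int.floor_add_fract τ
  injective := by
    intro c a a' h
    have h1 := (inter_char h a a').mp h
    funext i
    apply h1.2
    revert i
    rw [forall_fin3, mem_fixed0, mem_fixed1, mem_fixed2]
    simp
  inter := chartX_inter

/-! ### The metric -/

lemma toReal_gt {p : ENNReal} (hp : 1 < p) (hp' : p ≠ ⊤) : 1 < p.toReal := by
  have := (ENNReal.toReal_lt_toReal ENNReal.one_ne_top hp').mpr hp
  simpa using this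

lemma cubeDist_three {p : ENNReal} (hp : 1 < p) (hp' : p ≠ ⊤) (z w : UCube 3) :
    cubeDist p z w = nrm p.toReal (nrm p.toReal ((z 0 : ℝ) - w 0, (z 1 : ℝ) - w 1),
      (z 2 : ℝ) - w 2) := by
  have hq := toReal_gt hp hp'
  unfold cubeDist
  rw [PiLp.norm_eq_sum (by linarith), Fin.sum_univ_three]
  conv_rhs => unfold nrm
  have h : |nrm p.toReal ((z 0 : ℝ) - w 0, (z 1 : ℝ) - w 1)| ^ p.toReal =
      |(z 0 : ℝ) - w 0| ^ p.toReal + |(z 1 : ℝ) - w 1| ^ p.toReal := by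
    rw [abs_of_nonneg (nrm_nonneg _ _), nrm_rpow hq]
  unfold nrm at h
  simp only at h
  simp only [Real.norm_eq_abs]
  rw [h]

lemma dX_chart {p : ENNReal} (hp : 1 < p) (hp' : p ≠ ⊤) (c : SqIdx × ℤ) (z w : UCube 3) :
    dX (nrm p.toReal) (chartX c z) (chartX c w) = cubeDist p z w := by
  have hN := goodNorm_nrm (toReal_gt hp hp')
  rw [cubeDist_three hp hp']
  unfold dX chartX
  simp only
  rw [D_pt hN, add_sub_add_left_eq_sub]
  rfl

lemma chain_le {p : ENNReal} (hp : 1 < p) (hp' : p ≠ ⊤) {x y : XX} {ℓ : ℝ}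
    (h : KX.Chain p x y ℓ) : dX (nrm p.toReal) x y ≤ ℓ := by
  have hd := isMetric_dX (goodNorm_nrm (toReal_gt hp hp'))
  induction h with
  | nil x => rw [hd.self]
  | cons c z w y ℓ _ ih =>
    have h1 := hd.triangle (KX.chart c z) (KX.chart c w) y
    have h2 : dX (nrm p.toReal) (KX.chart c z) (KX.chart c w) = cubeDist p z w :=
      dX_chart hp hp' c z w
    linarith

lemma chain_append {X : Type} {K : CubeComplex X} {p : ENNReal} {x y z : X} {ℓ ℓ' : ℝ}
    (h : K.Chain p x y ℓ) (h' : K.Chain p y z ℓ') : K.Chain p x z (ℓ + ℓ') := by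
  induction h with
  | nil x => simpa using h'
  | cons c a b y ℓ _ ih =>
    rw [add_assoc]
    exact CubeComplex.Chain.cons c a b z _ (ih h')

lemma chain_step {X : Type} (K : CubeComplex X) (p : ENNReal) (c : K.Idx) (z w : UCube (K.dim c)) :
    K.Chain p (K.chart c z) (K.chart c w) (cubeDist p z w) := by
  have := CubeComplex.Chain.cons (K := K) (p := p) c z w (K.chart c w) 0
    (CubeComplex.Chain.nil _)
  rwa [add_zero] at this

/-! ### Local structure -/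

lemma one_le_N_corner {N : ℝ × ℝ → ℝ} (hN : GoodNorm N) (i : Letter) : 1 ≤ N (corner i) := by
  have := hN.abs_fst_le (corner i)
  simpa [corner] using this

lemma local_vertex' {N : ℝ × ℝ → ℝ} (hN : GoodNorm N) {v u' : Word} {i' : Letter} {s' : ℝ × ℝ}
    (hd : D N (V v) (pt u' i' s') < 1) : u' ++ [i'] = v ∨ u' = v := by
  by_cases h1 : u' ++ [i'] = v
  · exact Or.inl h1
  by_cases h2 : u' = v
  · exact Or.inr h2
  exfalso
  by_cases h3 : v <+: u' ++ [i']
  · -- v is a proper prefix of u'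
    rw [List.prefix_concat_iff] at h3
    rcases h3 with h3 | h3
    · exact h1 h3.symm
    · obtain ⟨t, ht⟩ := h3
      cases t with
      | nil => simp at ht; exact h2 ht.symm
      | cons j t =>
        have h4 : (v ++ [j]) <+: u' := ⟨t, by rw [← ht]; simp⟩
        have h5 : v ++ [j] ≠ u' ++ [i'] := by
          intro h
          have := h4.length_le
          rw [h] at this
          simp at this
        have h6 := D_ge hN (V v) (pt u' i' s') (v ++ [j])
        rw [V_of_not_prefix (not_prefix_self v j), pt_apply_ne _ h5, V_of_prefix h4, cc_append,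
          zero_sub, hN.neg] at h6
        have := one_le_N_corner hN j
        linarith
  · -- v is not a prefix
    rcases List.eq_nil_or_concat v with hv | ⟨v0, j, hv⟩
    · rw [hv] at h3; exact h3 List.nil_prefix
    · rw [List.concat_eq_append] at hv
      have h5 : v ≠ u' ++ [i'] := fun h => h1 h.symm
      have h4 : ¬ v <+: u' := fun h => h3 (h.trans (List.prefix_append _ _))
      have h6 := D_ge hN (V v) (pt u' i' s') v
      rw [V_of_prefix (List.prefix_refl v), pt_apply_ne _ h5, V_of_not_prefix h4, sub_zero, hv,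
        cc_append] at h6
      have := one_le_N_corner hN j
      rw [hv] at hd
      linarith

lemma local_vertex {N : ℝ × ℝ → ℝ} (hN : GoodNorm N) {v u' : Word} {i' : Letter} {s' : ℝ × ℝ}
    (hd : D N (V v) (pt u' i' s') < 1) : V v ∈ Sq u' i' := by
  rcases local_vertex' hN hd with h | h
  · rw [← h]; exact V_append_mem_Sq u' i'
  · rw [← h]; exact V_mem_Sq u' i'

lemma local_YS {N : ℝ × ℝ → ℝ} (hN : GoodNorm N) {y : Z} (hy : y ∈ YS) :
    ∃ δ > 0, ∀ y' ∈ YS, D N y y' < δ → ∃ u i, Red (u ++ [i]) ∧ y ∈ Sq u i ∧ y' ∈ Sq u i := by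
  have hvertex : ∀ v : Word, ∀ y' ∈ YS, D N (V v) y' < 1 →
      ∃ u i, Red (u ++ [i]) ∧ V v ∈ Sq u i ∧ y' ∈ Sq u i := by
    rintro v y' ⟨u', i', hr', s', hs', rfl⟩ hd
    exact ⟨u', i', hr', local_vertex hN hd, s', hs', rfl⟩
  obtain ⟨u, i, hr, s, hs, rfl⟩ := hy
  by_cases h0 : s = 0
  · refine ⟨1, one_pos, ?_⟩
    rw [h0, pt_zero]
    exact hvertex u
  by_cases h1 : s = corner i
  · refine ⟨1, one_pos, ?_⟩
    rw [h1, ← V_append]
    exact hvertex (u ++ [i])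
  have hpos0 : 0 < N s := lt_of_le_of_ne (hN.nonneg _) (fun h => h0 (hN.eq_zero _ h.symm))
  have hpos1 : 0 < N (s - corner i) :=
    lt_of_le_of_ne (hN.nonneg _) (fun h => h1 (sub_eq_zero.mp (hN.eq_zero _ h.symm)))
  refine ⟨min (N s) (N (s - corner i)), lt_min hpos0 hpos1, ?_⟩
  rintro y' ⟨u', i', hr', s', hs', rfl⟩ hd
  by_cases hne : (u', i') = (u, i)
  · obtain ⟨rfl, rfl⟩ := Prod.mk.inj hne
    exact ⟨u', i', hr, ⟨s, hs, rfl⟩, ⟨s', hs', rfl⟩⟩
  · exfalso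
    have h2 := D_ge hN (pt u i s) (pt u' i' s') (u ++ [i])
    rw [pt_apply_self, pt_apply_ne _ (append_ne (Ne.symm hne))] at h2
    have h3 := h2.trans_lt hd
    rw [lt_min_iff] at h3
    rcases V_value u' u i with h4 | h4
    · rw [h4, sub_zero] at h3
      exact lt_irrefl _ h3.1
    · rw [h4] at h3
      exact lt_irrefl _ h3.2

lemma local_R (τ : ℝ) : ∃ δ > 0, ∀ τ' : ℝ, |τ - τ'| < δ →
    ∃ n : ℤ, τ ∈ Icc (n : ℝ) (n + 1) ∧ τ' ∈ Icc (n : ℝ) (n + 1) := by
  have hf := Int.floor_add_fract τ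
  rcases (Int.fract_nonneg τ).eq_or_lt with h0 | h0
  · refine ⟨1, one_pos, ?_⟩
    intro τ' h
    rw [abs_lt] at h
    rcases le_total τ τ' with hle | hle
    · refine ⟨⌊τ⌋, ⟨?_, ?_⟩, ?_, ?_⟩ <;> linarith
    · refine ⟨⌊τ⌋ - 1, ⟨?_, ?_⟩, ?_, ?_⟩ <;> push_cast <;> linarith
  · have h1 := Int.fract_lt_one τ
    refine ⟨min (Int.fract τ) (1 - Int.fract τ), lt_min h0 (by linarith), ?_⟩
    intro τ' h
    rw [lt_min_iff, abs_lt, abs_lt] at h
    refine ⟨⌊τ⌋, ⟨?_, ?_⟩, ?_, ?_⟩ <;> linarith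

/-- A point of `Sq u i × [n, n+1]` is in the cube `((u, i), n)`. -/
lemma exists_chart {u : Word} {i : Letter} (hr : Red (u ++ [i])) {n : ℤ} {x : XX}
    (h1 : x.1.1 ∈ Sq u i) (h2 : x.1.2 ∈ Icc (n : ℝ) (n + 1)) :
    ∃ z : UCube 3, chartX (⟨(u, i), hr⟩, n) z = x := by
  obtain ⟨s, hs, hy⟩ := h1
  refine ⟨![⟨s.1, hs.1, hs.2.1⟩, ⟨s.2, hs.2.2.1, hs.2.2.2⟩,
      ⟨x.1.2 - n, by linarith [h2.1], by linarith [h2.2]⟩], ?_⟩
  unfold chartX
  apply Subtype.ext
  apply Prod.ext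
  · simp only [Matrix.cons_val_zero, Matrix.cons_val_one]
    exact hy.symm
  · simp only [Matrix.cons_val]
    ring

/-- Nearby points lie in a common cube. -/
lemma local_XX {N : ℝ × ℝ → ℝ} (hN : GoodNorm N) (x : XX) : ∃ δ > 0, ∀ y : XX, dX N x y < δ →
    ∃ (c : SqIdx × ℤ) (z w : UCube 3), chartX c z = x ∧ chartX c w = y := by
  obtain ⟨δ1, h1, hδ1⟩ := local_YS hN x.2
  obtain ⟨δ2, h2, hδ2⟩ := local_R x.1.2
  refine ⟨min δ1 δ2, lt_min h1 h2, ?_⟩
  intro y hy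
  rw [lt_min_iff] at hy
  obtain ⟨u, i, hr, hx1, hy1⟩ := hδ1 y.1.1 y.2 ((D_le_dX hN x y).trans_lt hy.1)
  obtain ⟨n, hx2, hy2⟩ := hδ2 y.1.2 ((abs_sub_le_dX hN x y).trans_lt hy.2)
  obtain ⟨z, hz⟩ := exists_chart hr hx1 hx2
  obtain ⟨w, hw⟩ := exists_chart hr hy1 hy2
  exact ⟨_, z, w, hz, hw⟩

/-! ### Geodesics -/

/-- Geodesics of the product. -/
noncomputable def seg {N : ℝ × ℝ → ℝ} (hN : GoodNorm N) (x y : XX) (t : ℝ) : XX :=
  open Classical in
  if ht : t ∈ Icc (0 : ℝ) 1 then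
    Classical.choose (geo_dX hN x (mem_univ _) y (mem_univ _) t ht) else x

lemma seg_TP {N : ℝ × ℝ → ℝ} (hN : GoodNorm N) (x y : XX) {t : ℝ} (ht : t ∈ Icc (0 : ℝ) 1) :
    TP (dX N) t x y (seg hN x y t) := by
  unfold seg
  rw [dif_pos ht]
  exact (Classical.choose_spec (geo_dX hN x (mem_univ _) y (mem_univ _) t ht)).2

lemma TP_unique {N : ℝ × ℝ → ℝ} (hN : GoodNorm N) {x y m m' : XX} {t : ℝ}
    (ht : t ∈ Icc (0 : ℝ) 1) (h : TP (dX N) t x y m) (h' : TP (dX N) t x y m') : m = m' :=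
  TP.unique (isMetric_dX hN) (tri_dX hN) ht (mem_univ _) (mem_univ _) (mem_univ _) (mem_univ _) h h'

lemma TP_of_isGeodesic {X : Type*} {d : X → X → ℝ} {x y : X} {γ : ℝ → X}
    (h : IsGeodesic d x y γ) {t : ℝ} (ht : t ∈ Icc (0 : ℝ) 1) : TP d t x y (γ t) := by
  obtain ⟨h0, h1, h2⟩ := h
  have a := h2 0 ⟨le_rfl, zero_le_one⟩ t ht
  have b := h2 t ht 1 ⟨zero_le_one, le_rfl⟩
  rw [h0, zero_sub, abs_neg, abs_of_nonneg ht.1] at a
  rw [h1, abs_sub_comm, abs_of_nonneg (by linarith [ht.2])] at b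
  exact ⟨a, b⟩

lemma isGeodesic_seg {N : ℝ × ℝ → ℝ} (hN : GoodNorm N) (x y : XX) :
    IsGeodesic (dX N) x y (seg hN x y) := by
  have hd := isMetric_dX hN
  have h0 := seg_TP hN x y (t := 0) ⟨le_rfl, zero_le_one⟩
  have h1 := seg_TP hN x y (t := 1) ⟨zero_le_one, le_rfl⟩
  refine ⟨?_, ?_, ?_⟩
  · have := h0.1
    rw [zero_mul] at this
    exact (hd.eq_of_le this.le).symm
  · have := h1.2
    rw [sub_self, zero_mul] at this
    exact hd.eq_of_le this.le
  · intro s hs t ht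
    have hs' := seg_TP hN x y hs
    have ht' := seg_TP hN x y ht
    rw [between_dist_abs hd (geo_dX hN) (tri_dX hN) (mem_univ x) (mem_univ y) (mem_univ _)
      (mem_univ _) (by rw [hs'.1, hs'.2]; ring) (by rw [ht'.1, ht'.2]; ring), hs'.1, ht'.1,
      ← sub_mul, abs_mul, abs_of_nonneg (hd.nonneg x y)]

/-- A geodesic for `dX N` is `seg` on `[0,1]`. -/
lemma isGeodesic_eq_seg {N : ℝ × ℝ → ℝ} (hN : GoodNorm N) {x y : XX} {γ : ℝ → XX}
    (h : IsGeodesic (dX N) x y γ) {t : ℝ} (ht : t ∈ Icc (0 : ℝ) 1) : γ t = seg hN x y t :=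
  TP_unique hN ht (TP_of_isGeodesic h ht) (seg_TP hN x y ht)

/-! ### The gluing metric is the product metric -/

/-- Continuous induction on `[0,1]`. -/
lemma cont_ind (P : ℝ → Prop) (h0 : P 0)
    (hloc : ∀ s ∈ Icc (0 : ℝ) 1, ∃ δ > 0, ∀ t ∈ Icc (0 : ℝ) 1, |s - t| < δ →
      (s ≤ t → P s → P t) ∧ (t ≤ s → P t → P s)) : ∀ b ∈ Icc (0 : ℝ) 1, P b := by
  set S : Set ℝ := {b | b ∈ Icc (0 : ℝ) 1 ∧ ∀ b' ∈ Icc (0 : ℝ) b, P b'} with hS
  have hS0 : (0 : ℝ) ∈ S := by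
    refine ⟨⟨le_rfl, zero_le_one⟩, ?_⟩
    rintro b' ⟨h1, h2⟩
    rw [le_antisymm h2 h1]; exact h0
  have hbdd : BddAbove S := ⟨1, fun b hb => hb.1.2⟩
  set m := sSup S with hm
  have hm0 : 0 ≤ m := le_csSup hbdd hS0
  have hm1 : m ≤ 1 := csSup_le ⟨0, hS0⟩ (fun b hb => hb.1.2)
  obtain ⟨δ, hδ, hδ'⟩ := hloc m ⟨hm0, hm1⟩
  have hlt : ∀ b' ∈ Icc (0 : ℝ) 1, b' < m → P b' := by
    intro b' hb' hlt
    obtain ⟨s, hs, hs'⟩ := exists_lt_of_lt_csSup ⟨0, hS0⟩ hlt
    exact hs.2 b' ⟨hb'.1, hs'.le⟩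
  have hPm : P m := by
    obtain ⟨s, hs, hs'⟩ := exists_lt_of_lt_csSup ⟨0, hS0⟩ (show m - δ < m by linarith)
    have hsm : s ≤ m := le_csSup hbdd hs
    refine (hδ' s hs.1 ?_).2 hsm (hs.2 s ⟨hs.1.1, le_rfl⟩)
    rw [abs_of_nonneg (by linarith)]; linarith
  have hmS : m = 1 := by
    by_contra hne
    have hm1' : m < 1 := lt_of_le_of_ne hm1 hne
    set t := min 1 (m + δ / 2) with ht
    have htm : m < t := lt_min hm1' (by linarith)
    have ht1 : t ≤ 1 := min_le_left _ _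
    have ht2 : t ≤ m + δ / 2 := min_le_right _ _
    have htS : t ∈ S := by
      refine ⟨⟨by linarith, ht1⟩, ?_⟩
      rintro b' ⟨h1, h2⟩
      rcases lt_or_ge b' m with h3 | h3
      · exact hlt b' ⟨h1, by linarith⟩ h3
      · refine (hδ' b' ⟨h1, by linarith⟩ ?_).1 h3 hPm
        rw [abs_sub_comm, abs_of_nonneg (by linarith)]; linarith
    have := le_csSup hbdd htS
    linarith
  intro b hb
  rcases lt_or_ge b m with h | h
  · exact hlt b hb h
  · have : b = m := le_antisymm (by rw [hmS]; exact hb.2) h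
    rw [this]; exact hPm

/-- Existence of a chain of the right length. -/
lemma exists_chain {p : ENNReal} (hp : 1 < p) (hp' : p ≠ ⊤) (x y : XX) :
    KX.Chain p x y (dX (nrm p.toReal) x y) := by
  have hN := goodNorm_nrm (toReal_gt hp hp')
  have hd := isMetric_dX hN
  set N := nrm p.toReal with hNdef
  obtain ⟨hγ0, hγ1, hγ⟩ := isGeodesic_seg hN x y
  set γ := seg hN x y with hγdef
  set L := dX N x y with hL
  have hL0 : 0 ≤ L := hd.nonneg x y
  -- local chains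
  have hloc : ∀ s ∈ Icc (0 : ℝ) 1, ∃ δ > 0, ∀ t ∈ Icc (0 : ℝ) 1, |s - t| < δ →
      KX.Chain p (γ s) (γ t) (|s - t| * L) ∧ KX.Chain p (γ t) (γ s) (|s - t| * L) := by
    intro s hs
    obtain ⟨δ, hδ, hδ'⟩ := local_XX hN (γ s)
    refine ⟨δ / (L + 1), div_pos hδ (by linarith), ?_⟩
    intro t ht hst
    have h1 : dX N (γ s) (γ t) < δ := by
      rw [hγ s hs t ht]
      rw [lt_div_iff₀ (by linarith)] at hst
      nlinarith [abs_nonneg (s - t)]
    obtain ⟨c, z, w, hz, hw⟩ := hδ' _ h1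
    have h2 := dX_chart hp hp' c z w
    have h3 := dX_chart hp hp' c w z
    have h4 := chain_step KX p c z w
    have h5 := chain_step KX p c w z
    have e : ∀ a : UCube 3, KX.chart c a = chartX c a := fun _ => rfl
    rw [e, e] at h4 h5
    rw [hz, hw, hγ s hs t ht] at h2
    rw [hz, hw, hγ t ht s hs, abs_sub_comm] at h3
    rw [hz, hw] at h4 h5
    exact ⟨by rw [h2]; exact h4, by rw [h3]; exact h5⟩
  -- continuous induction
  have main : ∀ b ∈ Icc (0 : ℝ) 1, KX.Chain p x (γ b) (b * L) := by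
    apply cont_ind
    · rw [hγ0, zero_mul]
      exact CubeComplex.Chain.nil x
    · intro s hs
      obtain ⟨δ, hδ, hδ'⟩ := hloc s hs
      refine ⟨δ, hδ, ?_⟩
      intro t ht hst
      obtain ⟨h1, h2⟩ := hδ' t ht hst
      constructor
      · intro hle hP
        have h3 := chain_append hP h1
        rw [abs_sub_comm, abs_of_nonneg (by linarith)] at h3
        convert h3 using 1
        ring
      · intro hle hP
        have h3 := chain_append hP h2
        rw [abs_of_nonneg (by linarith)] at h3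
        convert h3 using 1
        ring
  have := main 1 ⟨zero_le_one, le_rfl⟩
  rwa [hγ1, one_mul] at this

/-- The gluing metric of the complex. -/
theorem dist_KX {p : ENNReal} (hp : 1 < p) (hp' : p ≠ ⊤) : KX.dist p = dX (nrm p.toReal) := by
  funext x y
  unfold CubeComplex.dist
  exact IsLeast.csInf_eq ⟨exists_chain hp hp' x y, fun ℓ hℓ => chain_le hp hp' hℓ⟩

theorem dist_KX_two : KX.dist 2 = dX (nrm 2) := by
  have := dist_KX (p := 2) (by norm_num) (by norm_num)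
  rwa [ENNReal.toReal_ofNat] at this

theorem KX_isCAT0 : KX.IsCAT0Complex := by
  have hN := goodNorm_nrm (q := 2) (by norm_num)
  refine ⟨fun x y => ⟨_, exists_chain (by norm_num) (by norm_num) x y⟩, ?_⟩
  rw [dist_KX_two]
  refine ⟨isMetric_dX hN, fun x y => ⟨_, isGeodesic_seg hN x y⟩, ?_⟩
  intro x y z γ hγ t ht
  exact cat_dX x (mem_univ _) y (mem_univ _) z (mem_univ _) t ht (γ t) (mem_univ _)
    (TP_of_isGeodesic hγ ht)

/-! ### Local finiteness -/

lemma locfin_Y {u u' : Word} {i i' : Letter} {s s' : ℝ × ℝ} (h : pt u' i' s' = pt u i s) :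
    u' = u ∨ u' = u ++ [i] ∨ u' = u.dropLast := by
  have hN := goodNorm_nrm (q := 2) (by norm_num)
  have key : ∀ v, pt u' i' s' = V v → u' ++ [i'] = v ∨ u' = v := by
    intro v hv
    apply local_vertex' hN (s' := s')
    rw [hv, (isMetric_D hN).self]
    exact one_pos
  by_cases hne : (u', i') = (u, i)
  · exact Or.inl (Prod.mk.inj hne).1
  · obtain ⟨_, h2⟩ := pt_forced hne h
    rcases V_value u' u i with h3 | h3
    · rw [h2, h3, pt_zero] at h
      rcases key u h with h4 | h4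
      · right; right
        rw [← h4]; simp
      · exact Or.inl h4
    · rw [h2, h3, ← V_append] at h
      rcases key _ h with h4 | h4
      · left
        exact (List.append_inj' h4 rfl).1
      · exact Or.inr (Or.inl h4)

theorem KX_locallyFinite : KX.LocallyFinite := by
  classical
  rintro ⟨⟨y, τ⟩, u, i, hr, s, hs, hy⟩
  simp only at hy
  have hfin1 : {e : SqIdx | e.1.1 = u ∨ e.1.1 = u ++ [i] ∨ e.1.1 = u.dropLast}.Finite := by
    apply Set.Finite.subset (Set.Finite.preimage (Subtype.val_injective.injOn)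
      (Finset.finite_toSet ((({u, u ++ [i], u.dropLast} : Finset Word)) ×ˢ
        (Finset.univ : Finset Letter))))
    intro e he
    simp only [mem_ofPred_eq] at he
    simp only [mem_preimage, Finset.mem_coe, Finset.mem_product, Finset.mem_insert,
      Finset.mem_singleton, Finset.mem_univ, and_true]
    exact he
  have hfin2 : {n : ℤ | (n : ℝ) ≤ τ ∧ τ ≤ n + 1}.Finite := by
    apply Set.Finite.subset (Set.finite_Icc (⌊τ⌋ - 1) ⌊τ⌋)
    rintro n ⟨h1, h2⟩
    have h3 : n ≤ ⌊τ⌋ := Int.le_floor.mpr h1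
    have h4 : ⌊τ⌋ < n + 2 := by
      rw [Int.floor_lt]; push_cast; linarith
    exact ⟨by omega, h3⟩
  apply Set.Finite.subset (hfin1.prod hfin2)
  rintro ⟨e, n⟩ ⟨(z : UCube 3), hz⟩
  have hz' : (pt e.1.1 e.1.2 ((z 0 : ℝ), (z 1 : ℝ)), (n : ℝ) + (z 2 : ℝ)) = (y, τ) :=
    congrArg Subtype.val hz
  rw [Prod.mk.injEq] at hz'
  obtain ⟨h1, h2⟩ := hz'
  rw [hy] at h1
  refine ⟨locfin_Y h1, ?_, ?_⟩
  · show (n : ℝ) ≤ τ
    rw [← h2]; linarith [(z 2).2.1]
  · show τ ≤ (n : ℝ) + 1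
    rw [← h2]; linarith [(z 2).2.2]

/-! ### Bicombings -/

theorem bicombing_seg {N : ℝ × ℝ → ℝ} (hN : GoodNorm N) :
    IsConvexGeodesicBicombing (dX N) (seg hN) := by
  have hd := isMetric_dX hN
  refine ⟨isGeodesic_seg hN, ?_⟩
  intro x y x' y'
  refine ⟨convex_Icc 0 1, ?_⟩
  have hcons : ∀ (x y : XX) (s t a b : ℝ), s ∈ Icc (0 : ℝ) 1 → t ∈ Icc (0 : ℝ) 1 → 0 ≤ a → 0 ≤ b →
      a + b = 1 → s ≤ t → TP (dX N) b (seg hN x y s) (seg hN x y t) (seg hN x y (a * s + b * t)) := by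
    intro x y s t a b hs ht ha hb hab hst
    have hm : a * s + b * t ∈ Icc (0 : ℝ) 1 := by
      constructor
      · nlinarith [hs.1, ht.1]
      · nlinarith [hs.2, ht.2]
    obtain ⟨_, _, h3⟩ := isGeodesic_seg hN x y
    have ha' : a = 1 - b := by linarith
    constructor
    · rw [h3 s hs _ hm, h3 s hs t ht]
      have h1 : s - (a * s + b * t) = b * (s - t) := by rw [ha']; ring
      rw [h1, abs_mul, abs_of_nonneg hb, mul_assoc]
    · rw [h3 _ hm t ht, h3 s hs t ht]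
      have h1 : (a * s + b * t) - t = (1 - b) * (s - t) := by rw [ha']; ring
      rw [h1, abs_mul, abs_of_nonneg (by linarith), mul_assoc]
  intro s hs t ht a b ha hb hab
  simp only [smul_eq_mul]
  have hb1 : b ∈ Icc (0 : ℝ) 1 := ⟨hb, by linarith⟩
  have ha1 : a ∈ Icc (0 : ℝ) 1 := ⟨ha, by linarith⟩
  rcases le_total s t with hst | hst
  · have h1 := bus_dX hN hb1 (hcons x y s t a b hs ht ha hb hab hst)
      (hcons x' y' s t a b hs ht ha hb hab hst)
    rwa [show 1 - b = a by linarith] at h1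
  · have h1 := bus_dX hN ha1 (hcons x y t s b a ht hs hb ha (by linarith) hst)
      (hcons x' y' t s b a ht hs hb ha (by linarith) hst)
    rw [show 1 - a = b by linarith, add_comm (b * t)] at h1
    linarith

/-- Any geodesic bicombing is given by `seg` on `[0,1]`. -/
lemma bicombing_eq {N : ℝ × ℝ → ℝ} (hN : GoodNorm N) {σ : XX → XX → ℝ → XX}
    (h : IsConvexGeodesicBicombing (dX N) σ) (x y : XX) {t : ℝ} (ht : t ∈ Icc (0 : ℝ) 1) :
    σ x y t = seg hN x y t :=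
  isGeodesic_eq_seg hN (h.geodesic x y) ht

end Pool.Agent.H71.Cube
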