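import Mathlib
import Pool.Agent.H71.Cube.Complex

set_option autoImplicit false

/-!
# The cocompact group action
-/

namespace Pool.Agent.H71.Cube

open Set

/-! ### Left multiplication by a letter -/

/-- Left multiplication of reduced words by the involution `i`. -/
def lm (i : Letter) : Word → Word
  | [] => [i]
  | j :: w => if j = i then w else i :: j :: w

lemma lm_nil (i : Letter) : lm i [] = [i] := rfl

lemma lm_cons_self (i : Letter) (w : Word) : lm i (i :: w) = w := by simp [lm]

lemma lm_cons_ne {i j : Letter} (h : j ≠ i) (w : Word) : lm i (j :: w) = i :: j :: w := by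
  simp [lm, h]

lemma red_nil : Red [] := List.isChain_nil

lemma red_singleton (i : Letter) : Red [i] := List.isChain_singleton i

lemma red_cons_cons {i j : Letter} {w : Word} : Red (i :: j :: w) ↔ i ≠ j ∧ Red (j :: w) :=
  List.isChain_cons_cons

lemma Red.tail {i : Letter} {w : Word} (h : Red (i :: w)) : Red w := by
  cases w with
  | nil => exact red_nil
  | cons j w => exact (red_cons_cons.mp h).2

lemma lm_lm (i : Letter) {u : Word} (h : Red u) : lm i (lm i u) = u := by
  cases u with
  | nil => simp [lm]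
  | cons j w =>
    by_cases hj : j = i
    · subst hj
      rw [lm_cons_self]
      cases w with
      | nil => rfl
      | cons k w =>
        rw [lm_cons_ne]
        exact (red_cons_cons.mp h).1.symm
    · rw [lm_cons_ne hj, lm_cons_self]

lemma red_lm (i : Letter) {u : Word} (h : Red u) : Red (lm i u) := by
  cases u with
  | nil => exact red_singleton i
  | cons j w =>
    by_cases hj : j = i
    · subst hj
      rw [lm_cons_self]
      exact h.tail
    · rw [lm_cons_ne hj, red_cons_cons]
      exact ⟨Ne.symm hj, h⟩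

lemma lm_append (i : Letter) {u : Word} {j : Letter} (h : ¬ (u = [] ∧ j = i)) :
    lm i (u ++ [j]) = lm i u ++ [j] := by
  cases u with
  | nil =>
    have hj : j ≠ i := fun h' => h ⟨rfl, h'⟩
    simp [lm, hj]
  | cons k w =>
    by_cases hk : k = i
    · subst hk
      rw [lm_cons_self, List.cons_append, lm_cons_self]
    · rw [lm_cons_ne hk, List.cons_append, lm_cons_ne hk]
      rfl

lemma cc_lm (i : Letter) {w : Word} (h0 : w ≠ []) (h1 : w ≠ [i]) : cc (lm i w) = cc w := by
  rcases List.eq_nil_or_concat w with hw | ⟨w0, k, hw⟩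
  · exact absurd hw h0
  · rw [List.concat_eq_append] at hw
    subst hw
    rw [lm_append, cc_append, cc_append]
    rintro ⟨rfl, rfl⟩
    exact h1 rfl

lemma lm_prefix (i : Letter) {w u : Word} (hw : Red w) (hu : Red u) (h0 : w ≠ []) (h1 : w ≠ [i]) :
    lm i w <+: u ↔ w <+: lm i u := by
  cases w with
  | nil => exact absurd rfl h0
  | cons k w =>
    by_cases hk : k = i
    · subst hk
      rw [lm_cons_self]
      cases w with
      | nil => exact absurd rfl h1
      | cons l w =>
        have hl : k ≠ l := (red_cons_cons.mp hw).1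
        cases u with
        | nil => simp [lm]
        | cons j u =>
          by_cases hj : j = k
          · subst hj
            rw [lm_cons_self, List.cons_prefix_cons]
            constructor
            · rintro ⟨h, _⟩; exact absurd h.symm hl
            · intro h
              cases u with
              | nil => simp at h
              | cons a u =>
                rw [List.cons_prefix_cons] at h
                exact absurd h.1 (red_cons_cons.mp hu).1
          · rw [lm_cons_ne hj, List.cons_prefix_cons (a := k)]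
            simp
    · rw [lm_cons_ne hk]
      cases u with
      | nil => simp [lm, hk]
      | cons j u =>
        by_cases hj : j = i
        · subst hj
          rw [lm_cons_self, List.cons_prefix_cons]
          simp
        · rw [lm_cons_ne hj, List.cons_prefix_cons, List.cons_prefix_cons (a := k)]
          constructor
          · rintro ⟨h, _⟩; exact absurd h.symm hj
          · rintro ⟨h, _⟩; exact absurd h hk

/-- The isometry of the square exchanging the two corners. -/
def flp (i : Letter) (s : ℝ × ℝ) : ℝ × ℝ := (1 - s.1, if i.1 then 1 - s.2 else s.2)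

lemma flp_zero (i : Letter) : flp i 0 = corner i := by
  rcases i with ⟨a, b⟩
  cases a <;> simp [flp, corner]

lemma flp_corner (i : Letter) : flp i (corner i) = 0 := by
  rcases i with ⟨a, b⟩
  cases a <;> simp [flp, corner]

lemma flp_flp (i : Letter) (s : ℝ × ℝ) : flp i (flp i s) = s := by
  rcases i with ⟨a, b⟩
  cases a <;> simp [flp]

lemma flp_mem (i : Letter) {s : ℝ × ℝ} (h : s ∈ sq) : flp i s ∈ sq := by
  obtain ⟨h1, h2, h3, h4⟩ := h
  rcases i with ⟨a, b⟩
  cases a <;> simp only [flp, sq, mem_ofPred_eq, if_true, Bool.false_eq_true, if_false] <;>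
    refine ⟨?_, ?_, ?_, ?_⟩ <;> linarith

open Classical in
/-- The action of the letter `i` on the ambient space. -/
noncomputable def L (i : Letter) (x : Z) : Z :=
  Finsupp.onFinset (insert [i] (x.support.image (lm i)))
    (fun w => if w = [] then 0 else if w = [i] then flp i (x [i]) else
      if Red w then x (lm i w) else 0) (by
    intro w hw
    rw [Finset.mem_insert, Finset.mem_image]
    by_cases h0 : w = []
    · rw [if_pos h0] at hw; exact absurd rfl hw
    by_cases h1 : w = [i]
    · exact Or.inl h1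
    by_cases h2 : Red w
    · rw [if_neg h0, if_neg h1, if_pos h2] at hw
      exact Or.inr ⟨lm i w, Finsupp.mem_support_iff.mpr hw, lm_lm i h2⟩
    · rw [if_neg h0, if_neg h1, if_neg h2] at hw; exact absurd rfl hw)

open Classical in
lemma L_apply (i : Letter) (x : Z) (w : Word) : L i x w = if w = [] then 0 else
    if w = [i] then flp i (x [i]) else if Red w then x (lm i w) else 0 := rfl

lemma V_of_not_red {u w : Word} (hu : Red u) (hw : ¬ Red w) : V u w = 0 :=
  V_of_not_prefix (fun h => hw (hu.of_prefix h))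

lemma flp_V (i : Letter) {u : Word} (hu : Red u) : flp i (V u [i]) = V (lm i u) [i] := by
  have hcc : cc [i] = corner i := cc_append [] i
  cases u with
  | nil => rw [V_nil, Finsupp.zero_apply, flp_zero, lm_nil, V_of_prefix (List.prefix_refl _), hcc]
  | cons j u =>
    by_cases hj : j = i
    · subst hj
      rw [lm_cons_self, V_of_prefix (by simp), hcc, flp_corner, V_of_not_prefix]
      intro h
      cases u with
      | nil => simp at h
      | cons a u =>
        rw [List.cons_prefix_cons] at h
        exact absurd h.1 (red_cons_cons.mp hu).1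
    · rw [lm_cons_ne hj, V_of_not_prefix, flp_zero, V_of_prefix (by simp), hcc]
      rw [List.cons_prefix_cons]
      rintro ⟨h, _⟩
      exact hj h.symm

lemma V_lm (i : Letter) {u w : Word} (hu : Red u) (hw : Red w) (h0 : w ≠ []) (h1 : w ≠ [i]) :
    V u (lm i w) = V (lm i u) w := by
  by_cases h : w <+: lm i u
  · rw [V_of_prefix h, V_of_prefix ((lm_prefix i hw hu h0 h1).mpr h), cc_lm i h0 h1]
  · rw [V_of_not_prefix h, V_of_not_prefix (fun h' => h ((lm_prefix i hw hu h0 h1).mp h'))]

/-- The action on the squares. -/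
lemma L_pt (i : Letter) {u : Word} {j : Letter} (hr : Red (u ++ [j])) (h : ¬ (u = [] ∧ j = i))
    (s : ℝ × ℝ) : L i (pt u j s) = pt (lm i u) j s := by
  have hu : Red u := hr.of_prefix (List.prefix_append _ _)
  have hrl : Red (lm i u ++ [j]) := by rw [← lm_append i h]; exact red_lm i hr
  ext1 w
  rw [L_apply]
  by_cases h0 : w = []
  · subst h0
    rw [if_pos rfl, pt_apply_ne _ (by simp), V_nil_apply]
  by_cases h1 : w = [i]
  · subst h1
    have e1 : [i] ≠ u ++ [j] := by
      intro h'
      apply h
      have h2 := List.append_inj' (s₁ := []) (t₁ := [i]) h' rfl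
      exact ⟨h2.1.symm, by simpa using h2.2.symm⟩
    have e2 : [i] ≠ lm i u ++ [j] := by
      intro h'
      have h2 := List.append_inj' (s₁ := []) (t₁ := [i]) h' rfl
      have h3 : j = i := by simpa using h2.2.symm
      have h4 := lm_lm i hu
      rw [← h2.1, lm_nil] at h4
      rw [← h4, h3] at hr
      exact (red_cons_cons.mp hr).1 rfl
    rw [if_neg (by simp), if_pos rfl, pt_apply_ne _ e1, pt_apply_ne _ e2, flp_V i hu]
  by_cases h2 : Red w
  · rw [if_neg h0, if_neg h1, if_pos h2]
    by_cases h3 : w = lm i u ++ [j]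
    · subst h3
      rw [pt_apply_self, ← lm_append i h, lm_lm i hr, pt_apply_self]
    · have h4 : lm i w ≠ u ++ [j] := by
        intro h'
        apply h3
        rw [← lm_append i h, ← h', lm_lm i h2]
      rw [pt_apply_ne _ h3, pt_apply_ne _ h4, V_lm i hu h2 h0 h1]
  · rw [if_neg h0, if_neg h1, if_neg h2, pt_apply_ne, V_of_not_red (red_lm i hu) h2]
    rintro rfl
    exact h2 hrl

lemma L_pt_self (i : Letter) (s : ℝ × ℝ) : L i (pt [] i s) = pt [] i (flp i s) := by
  ext1 w
  rw [L_apply]
  by_cases h0 : w = []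
  · subst h0
    rw [if_pos rfl, pt_apply_ne _ (by simp), V_nil_apply]
  by_cases h1 : w = [i]
  · subst h1
    rw [if_neg (by simp), if_pos rfl]
    have e1 := pt_apply_self [] i s
    have e2 := pt_apply_self [] i (flp i s)
    rw [List.nil_append] at e1 e2
    rw [e1, e2]
  have e3 : ∀ (v : Word) (s : ℝ × ℝ), v ≠ [i] → pt [] i s v = 0 := by
    intro v s hv
    rw [pt_apply_ne s (u := []) (by simpa using hv), V_nil, Finsupp.zero_apply]
  rw [e3 w _ h1, if_neg h0, if_neg h1]
  by_cases h2 : Red w
  · rw [if_pos h2, e3]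
    intro h'
    have h3 := lm_lm i h2
    rw [h', lm_cons_self] at h3
    exact h0 h3.symm
  · rw [if_neg h2]

lemma L_mem (i : Letter) {y : Z} (hy : y ∈ YS) : L i y ∈ YS := by
  obtain ⟨u, j, hr, s, hs, rfl⟩ := hy
  by_cases h : u = [] ∧ j = i
  · obtain ⟨rfl, rfl⟩ := h
    rw [L_pt_self]
    exact ⟨[], j, hr, _, flp_mem j hs, rfl⟩
  · rw [L_pt i hr h]
    exact ⟨lm i u, j, by rw [← lm_append i h]; exact red_lm i hr, s, hs, rfl⟩

lemma L_L (i : Letter) {y : Z} (hy : y ∈ YS) : L i (L i y) = y := by
  obtain ⟨u, j, hr, s, hs, rfl⟩ := hy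
  by_cases h : u = [] ∧ j = i
  · obtain ⟨rfl, rfl⟩ := h
    rw [L_pt_self, L_pt_self, flp_flp]
  · have hu : Red u := hr.of_prefix (List.prefix_append _ _)
    have h' : ¬ (lm i u = [] ∧ j = i) := by
      rintro ⟨h1, h2⟩
      have h4 := lm_lm i hu
      rw [h1, lm_nil] at h4
      rw [← h4, h2] at hr
      exact (red_cons_cons.mp hr).1 rfl
    rw [L_pt i hr h, L_pt i (by rw [← lm_append i h]; exact red_lm i hr) h', lm_lm i hu]

/-- The involution of `XX` given by the letter `i`. -/
noncomputable def LX (i : Letter) : Equiv.Perm XX :=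
  Function.Involutive.toPerm (fun x => ⟨(L i x.1.1, x.1.2), L_mem i x.2⟩) (by
    intro x
    apply Subtype.ext
    apply Prod.ext
    · exact L_L i x.2
    · rfl)

/-- The translations. -/
def TX (m : ℤ) : Equiv.Perm XX where
  toFun := fun x => ⟨(x.1.1, x.1.2 + m), x.2⟩
  invFun := fun x => ⟨(x.1.1, x.1.2 - m), x.2⟩
  left_inv := by
    intro x
    apply Subtype.ext
    apply Prod.ext
    · rfl
    · simp
  right_inv := by
    intro x
    apply Subtype.ext
    apply Prod.ext
    · rfl
    · simp

/-- `g` maps cubes isometrically onto cubes. -/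
def IsCubical (g : XX → XX) : Prop :=
  ∀ c : SqIdx × ℤ, ∃ (c' : SqIdx × ℤ) (e : UCube 3 ≃ UCube 3),
    (∀ z w, cubeDist 2 (e z) (e w) = cubeDist 2 z w) ∧ ∀ z, g (chartX c z) = chartX c' (e z)

lemma IsCubical.comp {g h : XX → XX} (hg : IsCubical g) (hh : IsCubical h) :
    IsCubical (g ∘ h) := by
  intro c
  obtain ⟨c', e, he, he'⟩ := hh c
  obtain ⟨c'', f, hf, hf'⟩ := hg c'
  refine ⟨c'', e.trans f, fun z w => ?_, fun z => ?_⟩
  · rw [Equiv.trans_apply, Equiv.trans_apply, hf, he]
  · rw [Function.comp_apply, he', hf', Equiv.trans_apply]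

/-- The group of automorphisms. -/
def AutX : Subgroup (Equiv.Perm XX) where
  carrier := {g | IsCubical g ∧ IsCubical g.symm}
  mul_mem' := by
    rintro g h ⟨hg, hg'⟩ ⟨hh, hh'⟩
    exact ⟨hg.comp hh, hh'.comp hg'⟩
  one_mem' := by
    have : IsCubical (fun x => x) := fun c => ⟨c, Equiv.refl _, fun _ _ => rfl, fun _ => rfl⟩
    exact ⟨this, this⟩
  inv_mem' := by
    rintro g ⟨hg, hg'⟩
    exact ⟨hg', hg⟩

/-- The flip of the cube. -/
noncomputable def flpCube (i : Letter) : UCube 3 ≃ UCube 3 :=
  Function.Involutive.toPerm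
    (fun z => ![unitInterval.symm (z 0), if i.1 then unitInterval.symm (z 1) else z 1, z 2]) (by
    intro z
    funext k
    fin_cases k
    · simp
    · rcases i with ⟨a, b⟩
      cases a <;> simp
    · simp)

lemma flpCube_isometry (i : Letter) (z w : UCube 3) :
    cubeDist 2 (flpCube i z) (flpCube i w) = cubeDist 2 z w := by
  have h1 : (1 : ENNReal) < 2 := by norm_num
  have h2 : (2 : ENNReal) ≠ ⊤ := by norm_num
  have hN := goodNorm_nrm (toReal_gt h1 h2)
  rw [cubeDist_three h1 h2, cubeDist_three h1 h2]
  have e0 : ∀ z : UCube 3, ((flpCube i z 0 : unitInterval) : ℝ) = 1 - z 0 := fun z => rfl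
  have e2 : ∀ z : UCube 3, ((flpCube i z 2 : unitInterval) : ℝ) = z 2 := fun z => rfl
  rcases i with ⟨a, b⟩
  cases a
  · have e1 : ∀ z : UCube 3, ((flpCube (false, b) z 1 : unitInterval) : ℝ) = z 1 := fun z => rfl
    rw [e0, e0, e1, e1, e2, e2]
    congr 2
    apply le_antisymm <;> apply hN.mono _ _ _ _ _ le_rfl <;> rw [← abs_neg] <;>
      apply le_of_eq <;> congr 1 <;> ring
  · have e1 : ∀ z : UCube 3, ((flpCube (true, b) z 1 : unitInterval) : ℝ) = 1 - z 1 := fun z => rfl
    rw [e0, e0, e1, e1, e2, e2]
    congr 2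
    apply le_antisymm <;> apply hN.mono <;> rw [← abs_neg] <;>
      apply le_of_eq <;> congr 1 <;> ring

lemma isCubical_LX (i : Letter) : IsCubical (LX i) := by
  rintro ⟨⟨⟨u, j⟩, hr⟩, n⟩
  by_cases h : u = [] ∧ j = i
  · obtain ⟨rfl, rfl⟩ := h
    refine ⟨(⟨([], j), hr⟩, n), flpCube j, flpCube_isometry j, ?_⟩
    intro z
    apply Subtype.ext
    apply Prod.ext
    · show L j (pt [] j ((z 0 : ℝ), (z 1 : ℝ))) = _
      rw [L_pt_self]
      show pt [] j _ = pt [] j _
      congr 1
      rcases j with ⟨a, b⟩
      cases a <;> rfl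
    · rfl
  · refine ⟨(⟨(lm i u, j), by rw [← lm_append i h]; exact red_lm i hr⟩, n), Equiv.refl _,
      fun _ _ => rfl, ?_⟩
    intro z
    apply Subtype.ext
    apply Prod.ext
    · show L i (pt u j ((z 0 : ℝ), (z 1 : ℝ))) = _
      rw [L_pt i hr h]
      rfl
    · rfl

lemma isCubical_TX (m : ℤ) : IsCubical (TX m) := by
  rintro ⟨e, n⟩
  refine ⟨(e, n + m), Equiv.refl _, fun _ _ => rfl, ?_⟩
  intro z
  apply Subtype.ext
  apply Prod.ext
  · rfl
  · show (n : ℝ) + (z 2 : ℝ) + m = ((n + m : ℤ) : ℝ) + (z 2 : ℝ)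
    push_cast; ring

lemma isCubical_TX_symm (m : ℤ) : IsCubical (TX m).symm := by
  rintro ⟨e, n⟩
  refine ⟨(e, n - m), Equiv.refl _, fun _ _ => rfl, ?_⟩
  intro z
  apply Subtype.ext
  apply Prod.ext
  · rfl
  · show (n : ℝ) + (z 2 : ℝ) - m = ((n - m : ℤ) : ℝ) + (z 2 : ℝ)
    push_cast; ring

/-- The involutions as automorphisms. -/
noncomputable def LA (i : Letter) : AutX := ⟨LX i, isCubical_LX i, isCubical_LX i⟩

/-- The translations as automorphisms. -/
def TA (m : ℤ) : AutX := ⟨TX m, isCubical_TX m, isCubical_TX_symm m⟩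

/-- Every cube is in the orbit of one of finitely many ones. -/
lemma orbit_chart (i : Letter) : ∀ (u : Word) (hr : Red (u ++ [i])) (n : ℤ) (z : UCube 3),
    ∃ g : AutX, g • chartX (⟨(u, i), hr⟩, n) z = chartX (⟨([], i), red_singleton i⟩, 0) z := by
  intro u
  induction u with
  | nil =>
    intro hr n z
    refine ⟨TA (-n), ?_⟩
    apply Subtype.ext
    apply Prod.ext
    · rfl
    · show (n : ℝ) + (z 2 : ℝ) + ((-n : ℤ) : ℝ) = ((0 : ℤ) : ℝ) + (z 2 : ℝ)
      push_cast; ring
  | cons k u ih =>
    intro hr n z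
    obtain ⟨g, hg⟩ := ih hr.tail n z
    refine ⟨g * LA k, ?_⟩
    rw [mul_smul, ← hg]
    congr 1
    apply Subtype.ext
    apply Prod.ext
    · show L k (pt (k :: u) i ((z 0 : ℝ), (z 1 : ℝ))) = _
      rw [L_pt k hr (by simp), lm_cons_self]
      rfl
    · rfl

/-- The charts are continuous. -/
lemma continuous_chart (c : SqIdx × ℤ) (x : XX) :
    Continuous (fun z : UCube 3 => KX.dist 2 x (chartX c z)) := by
  rw [dist_KX_two]
  have hN := goodNorm_nrm (q := 2) (by norm_num)
  have hd := isMetric_dX hN
  rw [continuous_iff_continuousAt]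
  intro z0
  have h1 : ∀ z : UCube 3, |dX (nrm 2) x (chartX c z) - dX (nrm 2) x (chartX c z0)| ≤
      cubeDist 2 z z0 := by
    intro z
    have h2 := hd.abs_sub_le x (chartX c z) (chartX c z0)
    have h3 := dX_chart (p := 2) (by norm_num) (by norm_num) c z z0
    rw [ENNReal.toReal_ofNat] at h3
    rwa [h3] at h2
  have h2 : Filter.Tendsto (fun z : UCube 3 => cubeDist 2 z z0) (nhds z0) (nhds 0) := by
    have h3 : Continuous (fun z : UCube 3 => cubeDist 2 z z0) := by
      unfold cubeDist
      apply Continuous.norm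
      apply (PiLp.continuous_toLp 2 _).comp
      fun_prop
    have h4 : cubeDist 2 z0 z0 = 0 := by
      unfold cubeDist
      simp only [sub_self]
      exact norm_zero
    rw [← h4]
    exact h3.tendsto z0
  rw [ContinuousAt, tendsto_iff_dist_tendsto_zero]
  exact squeeze_zero (fun z => dist_nonneg) (fun z => by rw [Real.dist_eq]; exact h1 z) h2

/-- The cubes `([], i) × [0,1]`. -/
noncomputable def baseChart (p : Letter × UCube 3) : XX :=
  chartX (⟨([], p.1), red_singleton p.1⟩, 0) p.2

lemma continuous_baseChart (x : XX) :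
    Continuous (fun p : Letter × UCube 3 => KX.dist 2 x (baseChart p)) := by
  rw [continuous_prod_of_discrete_left]
  intro i
  exact continuous_chart (⟨([], i), red_singleton i⟩, 0) x

lemma isOpen_baseChart (x : XX) (ε : ℝ) :
    IsOpen (baseChart ⁻¹' {y | KX.dist 2 x y < ε}) :=
  isOpen_Iio.preimage (continuous_baseChart x)

theorem KX_cocompact : KX.IsCocompactAction AutX := by
  refine ⟨fun g c => ?_, ?_⟩
  · obtain ⟨c', e, h1, h2⟩ := g.2.1 c
    exact ⟨c', e, h1, h2⟩
  · let _ : TopologicalSpace XX := KX.topology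
    show CompactSpace (MulAction.orbitRel.Quotient AutX XX)
    let f : Letter × UCube 3 → MulAction.orbitRel.Quotient AutX XX :=
      fun p => Quotient.mk _ (baseChart p)
    have hf : Continuous f := by
      apply continuous_quot_mk.comp
      rw [continuous_generateFrom_iff]
      rintro _ ⟨x, ε, rfl⟩
      exact isOpen_baseChart x ε
    have hs : Function.Surjective f := by
      intro q
      induction q using Quotient.inductionOn with
      | h x =>
        obtain ⟨⟨⟨⟨u, i⟩, hr⟩, n⟩, (z : UCube 3), hz⟩ := KX.covers x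
        obtain ⟨g, hg⟩ := orbit_chart i u hr n z
        refine ⟨(i, z), ?_⟩
        apply Quotient.sound
        have hz' : chartX (⟨(u, i), hr⟩, n) z = x := hz
        have hb : baseChart (i, z) = g • x := by
          rw [← hz', hg]; rfl
        rw [hb]
        exact ⟨g, rfl⟩
    constructor
    rw [← hs.range_eq]
    exact isCompact_range hf

end Pool.Agent.H71.Cube
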