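import Mathlib
import Pool.Agent.H71.Cube.Action

set_option autoImplicit false

/-!
# Rays, and the failure of extension
-/

namespace Pool.Agent.H71.Cube

open Set Filter Topology

/-! ### Words -/

/-- The letters of the infinite word. -/
def aL (ε : Bool) (k : ℕ) : Letter :=
  (decide (Even (Nat.log 2 (k + 1))), if Even k then ε else !ε)

lemma aL_ne (ε : Bool) (k : ℕ) : aL ε k ≠ aL ε (k + 1) := by
  intro h
  have h2 := congrArg Prod.snd h
  unfold aL at h2
  by_cases hk : Even k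
  · have hk' : ¬ Even (k + 1) := by rw [Nat.even_add_one]; simpa using hk
    simp only [hk, hk', if_true, if_false] at h2
    cases ε <;> simp at h2
  · have hk' : Even (k + 1) := by rw [Nat.even_add_one]; exact hk
    simp only [hk, hk', if_true, if_false] at h2
    cases ε <;> simp at h2

/-- The finite words. -/
def wd (W : Word) (ε : Bool) : ℕ → Word
  | 0 => W
  | n + 1 => wd W ε n ++ [aL ε n]

lemma wd_zero (W : Word) (ε : Bool) : wd W ε 0 = W := rfl

lemma wd_succ (W : Word) (ε : Bool) (n : ℕ) : wd W ε (n + 1) = wd W ε n ++ [aL ε n] := rfl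

lemma length_wd (W : Word) (ε : Bool) (n : ℕ) : (wd W ε n).length = W.length + n := by
  induction n with
  | zero => rfl
  | succ n ih => rw [wd_succ, List.length_append, ih]; simp; ring

lemma red_concat {w : Word} {a b : Letter} (h : Red (w ++ [a])) (hab : a ≠ b) :
    Red (w ++ [a] ++ [b]) := by
  unfold Red at *
  rw [List.isChain_append]
  refine ⟨h, List.isChain_singleton b, ?_⟩
  intro x hx y hy
  simp at hx hy
  rw [← hx, ← hy]
  exact hab

lemma red_wd {u : Word} {i : Letter} (hr : Red (u ++ [i])) (n : ℕ) :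
    ∃ w a, wd (u ++ [i]) (!i.2) n = w ++ [a] ∧ Red (w ++ [a]) ∧ a ≠ aL (!i.2) n := by
  induction n with
  | zero =>
    refine ⟨u, i, rfl, hr, ?_⟩
    intro h
    have h2 := congrArg Prod.snd h
    simp [aL] at h2
  | succ n ih =>
    obtain ⟨w, a, h1, h2, h3⟩ := ih
    refine ⟨w ++ [a], aL (!i.2) n, ?_, red_concat h2 h3, aL_ne _ _⟩
    rw [wd_succ, h1]

lemma V_mem_YS {w : Word} {a : Letter} (h : Red (w ++ [a])) : V (w ++ [a]) ∈ YS :=
  ⟨w, a, h, V_append_mem_Sq w a⟩

lemma V_wd_mem {u : Word} {i : Letter} (hr : Red (u ++ [i])) (n : ℕ) :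
    V (wd (u ++ [i]) (!i.2) n) ∈ YS := by
  obtain ⟨w, a, h1, h2, _⟩ := red_wd hr n
  rw [h1]
  exact V_mem_YS h2

/-- The sum of the first steps. -/
noncomputable def H (N : ℝ × ℝ → ℝ) (ε : Bool) (n : ℕ) : ℝ :=
  ∑ k ∈ Finset.range n, N (corner (aL ε k))

lemma D_step {N : ℝ × ℝ → ℝ} (hN : GoodNorm N) (y : Z) (w : Word) (a : Letter)
    (hy : y (w ++ [a]) = 0) : D N y (V (w ++ [a])) = D N y (V w) + N (corner a) := by
  rw [V_append, pt]
  exact D_add_single hN y (V w) _ _ hy (V_of_not_prefix (not_prefix_self w a))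

lemma D_wd {N : ℝ × ℝ → ℝ} (hN : GoodNorm N) (u : Word) (i : Letter) (s : ℝ × ℝ) (ε : Bool)
    (n : ℕ) : D N (pt u i s) (V (wd (u ++ [i]) ε n)) = N (s - corner i) + H N ε n := by
  induction n with
  | zero =>
    rw [wd_zero, V_append, D_pt hN]
    simp [H]
  | succ n ih =>
    rw [wd_succ, D_step hN, ih, H, H, Finset.sum_range_succ]
    · ring
    · have hl := length_wd (u ++ [i]) ε n
      rw [pt_apply_ne, V_of_not_prefix]
      · intro h
        have := h.length_le
        rw [List.length_append, hl] at this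
        simp at this
        omega
      · intro h
        have := congrArg List.length h
        rw [List.length_append, hl] at this
        simp at this
        omega

lemma D_wd_wd {N : ℝ × ℝ → ℝ} (hN : GoodNorm N) (W : Word) (ε : Bool) {m n : ℕ} (hmn : m ≤ n) :
    D N (V (wd W ε m)) (V (wd W ε n)) = H N ε n - H N ε m := by
  induction n, hmn using Nat.le_induction with
  | base => rw [(isMetric_D hN).self]; ring
  | succ n hmn ih =>
    rw [wd_succ, D_step hN, ih, H, H, H, Finset.sum_range_succ]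
    · ring
    · rw [V_of_not_prefix]
      intro h
      have := h.length_le
      rw [List.length_append, length_wd, length_wd] at this
      simp at this
      omega

/-! ### Rays from aligned sequences -/

theorem exists_ray {N : ℝ × ℝ → ℝ} (hN : GoodNorm N) (o : XX) (z : ℕ → XX)
    (h1 : ∀ m n, m ≤ n → dX N o (z m) + dX N (z m) (z n) = dX N o (z n))
    (h2 : ∀ n : ℕ, (n : ℝ) ≤ dX N o (z n)) {σ : XX → XX → ℝ → XX}
    (hσ : IsConvexGeodesicBicombing (dX N) σ) :
    ∃ c : NNReal → XX, IsRay (dX N) σ o c ∧ ∀ (n : ℕ) (s : NNReal), 0 < s →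
      (s : ℝ) ≤ dX N o (z n) → σ o (z n) (s / dX N o (z n)) = c s := by
  have hd := isMetric_dX hN
  -- the segments
  have hseg : ∀ (n : ℕ) (s : ℝ), 0 ≤ s → s ≤ dX N o (z n) →
      dX N o (seg hN o (z n) (s / dX N o (z n))) = s ∧
      dX N (seg hN o (z n) (s / dX N o (z n))) (z n) = dX N o (z n) - s := by
    intro n s hs hle
    rcases (hd.nonneg o (z n)).eq_or_lt with h0 | h0
    · have hs0 : s = 0 := by linarith
      have ht := seg_TP hN o (z n) (t := s / dX N o (z n)) (by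
        rw [← h0, div_zero]; exact ⟨le_rfl, zero_le_one⟩)
      rw [ht.1, ht.2, ← h0, hs0]
      simp
    · have ht := seg_TP hN o (z n) (t := s / dX N o (z n))
        ⟨div_nonneg hs h0.le, (div_le_one h0).mpr hle⟩
      rw [ht.1, ht.2]
      constructor <;> field_simp
  have hup : ∀ (m n : ℕ) (s : ℝ) (q : XX), m ≤ n → dX N o q = s →
      dX N q (z m) = dX N o (z m) - s → dX N q (z n) = dX N o (z n) - s := by
    intro m n s q hmn hq1 hq2
    have h3 := hd.triangle q (z m) (z n)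
    have h4 := hd.triangle o q (z n)
    have h5 := h1 m n hmn
    apply le_antisymm <;> linarith
  have huniq : ∀ (n : ℕ) (s : ℝ) (q q' : XX), 0 ≤ s → s ≤ dX N o (z n) → dX N o q = s →
      dX N o q' = s → dX N q (z n) = dX N o (z n) - s → dX N q' (z n) = dX N o (z n) - s →
      q = q' := by
    intro n s q q' hs hle e1 e2 e3 e4
    rcases hs.eq_or_lt with h0 | h0
    · rw [← h0] at e1 e2
      rw [← hd.eq_of_le e1.le, ← hd.eq_of_le e2.le]
    · have hL : 0 < dX N o (z n) := by linarith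
      apply TP_unique hN (x := o) (y := z n) (t := s / dX N o (z n))
        ⟨div_nonneg hs hL.le, (div_le_one hL).mpr hle⟩
      · constructor
        · rw [e1]; field_simp
        · rw [e3]; field_simp
      · constructor
        · rw [e2]; field_simp
        · rw [e4]; field_simp
  set c : NNReal → XX := fun s => seg hN o (z ⌈s⌉₊) (s / dX N o (z ⌈s⌉₊)) with hc
  have hceil : ∀ s : NNReal, (s : ℝ) ≤ dX N o (z ⌈s⌉₊) := by
    intro s
    have h3 : (s : ℝ) ≤ (⌈s⌉₊ : ℝ) := by exact_mod_cast Nat.le_ceil s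
    exact h3.trans (h2 _)
  have hc1 : ∀ s : NNReal, dX N o (c s) = s := fun s => (hseg _ _ s.2 (hceil s)).1
  have hc2 : ∀ (n : ℕ) (s : NNReal), (s : ℝ) ≤ dX N o (z n) →
      dX N (c s) (z n) = dX N o (z n) - s := by
    intro n s hs
    have h3 := hseg ⌈s⌉₊ s s.2 (hceil s)
    rcases le_total ⌈s⌉₊ n with hle | hle
    · exact hup _ n s (c s) hle h3.1 h3.2
    · have h4 := hseg n s s.2 hs
      have h5 := hup n ⌈s⌉₊ s _ hle h4.1 h4.2
      have h6 := huniq ⌈s⌉₊ s _ (c s) s.2 (hceil s) h4.1 h3.1 h5 h3.2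
      rw [← h6]
      exact h4.2
  have hc3 : ∀ s t : NNReal, dX N (c s) (c t) = |(s : ℝ) - t| := by
    intro s t
    have hs : (s : ℝ) ≤ dX N o (z ⌈max s t⌉₊) := by
      refine le_trans ?_ (hceil (max s t))
      exact_mod_cast le_max_left s t
    have ht : (t : ℝ) ≤ dX N o (z ⌈max s t⌉₊) := by
      refine le_trans ?_ (hceil (max s t))
      exact_mod_cast le_max_right s t
    rw [between_dist_abs hd (geo_dX hN) (tri_dX hN) (mem_univ o) (mem_univ (z ⌈max s t⌉₊))
      (mem_univ _) (mem_univ _) (by rw [hc1, hc2 _ _ hs]; ring) (by rw [hc1, hc2 _ _ ht]; ring),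
      hc1, hc1]
  refine ⟨c, ⟨?_, hc3, ?_⟩, ?_⟩
  · have := hc1 0
    rw [NNReal.coe_zero] at this
    exact (hd.eq_of_le this.le).symm
  · intro T hT t ht
    have ht' : (t : ℝ) ∈ Icc (0 : ℝ) 1 := ⟨t.2, by exact_mod_cast ht⟩
    apply TP_unique hN (x := o) (y := c T) ht' _ (TP_of_isGeodesic (hσ.geodesic o (c T)) ht')
    constructor
    · rw [hc1, hc1]; push_cast; ring
    · rw [hc3, hc1]
      push_cast
      have : (t : ℝ) * T - T = -((1 - t) * T) := by ring
      have h4 : 0 ≤ (1 - (t : ℝ)) * T := mul_nonneg (by linarith [ht'.2]) T.2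
      rw [this, abs_neg, abs_of_nonneg h4]
  · intro n s hs hle
    have hs' : (0 : ℝ) < s := by exact_mod_cast hs
    have hL : 0 < dX N o (z n) := by linarith
    have ht' : (s : ℝ) / dX N o (z n) ∈ Icc (0 : ℝ) 1 :=
      ⟨div_nonneg hs'.le hL.le, (div_le_one hL).mpr hle⟩
    have h3 := TP_of_isGeodesic (hσ.geodesic o (z n)) ht'
    apply huniq n s _ (c s) s.2 hle
    · rw [h3.1]; field_simp
    · exact hc1 s
    · rw [h3.2]; field_simp
    · exact hc2 n s hle

/-- Convergence to the ray. -/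
theorem tendsto_ray {N : ℝ × ℝ → ℝ} (o : XX) (z : ℕ → XX)
    (h2 : ∀ n : ℕ, (n : ℝ) ≤ dX N o (z n)) {σ : XX → XX → ℝ → XX} {c : NNReal → XX}
    (hc : IsRay (dX N) σ o c) (hcz : ∀ (n : ℕ) (s : NNReal), 0 < s →
      (s : ℝ) ≤ dX N o (z n) → σ o (z n) (s / dX N o (z n)) = c s) :
    Tendsto (fun n => (Bord.ofPoint (z n) : Bord (dX N) σ o)) atTop (𝓝 (Bord.ofRay ⟨c, hc⟩)) := by
  rw [TopologicalSpace.tendsto_nhds_generateFrom_iff]
  rintro V hV hmem
  rcases hV with ⟨x, ε, rfl⟩ | ⟨c', R, ε, hR, hε, rfl⟩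
  · obtain ⟨y, _, hy⟩ := hmem
    exact absurd hy (by simp [Bord.ofPoint, Bord.ofRay])
  · rcases hmem with ⟨x, hx, _⟩ | ⟨c'', hc'', hlt⟩
    · exact absurd hx (by simp [Bord.ofPoint, Bord.ofRay])
    · have hcc : c'' = ⟨c, hc⟩ := by
        have := Sum.inr.inj hc''
        exact this.symm
      rw [hcc] at hlt
      filter_upwards [eventually_gt_atTop ⌈R⌉₊] with n hn
      left
      have h3 : (R : ℝ) < dX N o (z n) := by
        have h4 : (R : ℝ) ≤ (⌈R⌉₊ : ℝ) := by exact_mod_cast Nat.le_ceil R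
        have h5 : (⌈R⌉₊ : ℝ) < n := by exact_mod_cast hn
        linarith [h2 n]
      refine ⟨z n, rfl, h3, ?_⟩
      rw [hcz n R hR h3.le]
      exact hlt

/-! ### The sums -/

lemma N_corner_ge {N : ℝ × ℝ → ℝ} (hN : GoodNorm N) (i : Letter) : 1 ≤ N (corner i) :=
  one_le_N_corner hN i

lemma N_corner_le {N : ℝ × ℝ → ℝ} (hN : GoodNorm N) (i : Letter) : N (corner i) ≤ 2 := by
  have h1 := hN.mono (corner i).1 1 (corner i).2 1 (by simp [corner]) (by
    rcases i with ⟨a, b⟩
    cases a <;> simp [corner])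
  have h2 := hN.add_le (1, 0) (0, 1)
  rw [hN.one, hN.one'] at h2
  simp only [Prod.mk_add_mk, add_zero, zero_add] at h2
  linarith

lemma H_ge {N : ℝ × ℝ → ℝ} (hN : GoodNorm N) (ε : Bool) (n : ℕ) : (n : ℝ) ≤ H N ε n := by
  unfold H
  have := Finset.card_nsmul_le_sum (Finset.range n) (fun k => N (corner (aL ε k))) 1
    (fun k _ => N_corner_ge hN _)
  simpa using this

lemma H_le {N : ℝ × ℝ → ℝ} (hN : GoodNorm N) (ε : Bool) (n : ℕ) : H N ε n ≤ 2 * n := by
  unfold H
  have := Finset.sum_le_card_nsmul (Finset.range n) (fun k => N (corner (aL ε k))) 2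
    (fun k _ => N_corner_le hN _)
  rw [Finset.card_range, nsmul_eq_mul] at this
  linarith

lemma H_block (N : ℝ × ℝ → ℝ) (ε : Bool) (j : ℕ) :
    H N ε (2 ^ (j + 1) - 1) - H N ε (2 ^ j - 1) = 2 ^ j * N (1, if Even j then 1 else 0) := by
  unfold H
  have hle : 2 ^ j - 1 ≤ 2 ^ (j + 1) - 1 := by
    have : 2 ^ j ≤ 2 ^ (j + 1) := Nat.pow_le_pow_right (by norm_num) (by omega)
    omega
  rw [Finset.range_eq_Ico, Finset.range_eq_Ico, ← Finset.sum_Ico_consecutive _ (Nat.zero_le _) hle,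
    add_sub_cancel_left]
  have h1 : ∀ k ∈ Finset.Ico (2 ^ j - 1) (2 ^ (j + 1) - 1),
      N (corner (aL ε k)) = N (1, if Even j then 1 else 0) := by
    intro k hk
    rw [Finset.mem_Ico] at hk
    have hpos : 0 < 2 ^ j := by positivity
    have hlog : Nat.log 2 (k + 1) = j := by
      apply Nat.log_eq_of_pow_le_of_lt_pow
      · omega
      · omega
    simp [corner, aL, hlog]
  rw [Finset.sum_congr rfl h1, Finset.sum_const, Nat.card_Ico, nsmul_eq_mul]
  congr 1
  have hpos : 0 < 2 ^ j := by positivity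
  have h2 : 2 ^ (j + 1) - 1 - (2 ^ j - 1) = 2 ^ j := by
    rw [pow_succ]; omega
  rw [h2]; push_cast; ring

lemma nrm_one_one {q : ℝ} : nrm q (1, 1) = 2 ^ (1 / q) := by
  unfold nrm
  simp only [abs_one, Real.one_rpow]
  norm_num

theorem no_limit {P R : ℝ} (hP : 1 < P) (hR : 1 < R) (hne : P ≠ R) (ε : Bool) (κ κ' : ℝ)
    (hκ : 0 ≤ κ) (q : ℝ)
    (h : Tendsto (fun n => (κ' + H (nrm R) ε n) / (κ + H (nrm P) ε n)) atTop (𝓝 q)) : False := by
  have hNP := goodNorm_nrm hP
  have hNR := goodNorm_nrm hR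
  set a : ℕ → ℝ := fun n => κ + H (nrm P) ε n with ha
  set b : ℕ → ℝ := fun n => κ' + H (nrm R) ε n with hb
  set δ : ℕ → ℝ := fun n => b n / a n - q with hδ
  have hδ0 : Tendsto δ atTop (𝓝 0) := by
    have := h.sub_const q
    rwa [sub_self] at this
  have hab : ∀ n, 1 ≤ n → b n - q * a n = a n * δ n := by
    intro n hn
    have h1 : (1 : ℝ) ≤ n := by exact_mod_cast hn
    have h2 : 0 < a n := by
      have := H_ge hNP ε n
      simp only [ha]; linarith
    simp only [hδ]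
    field_simp
  have hN : Tendsto (fun j : ℕ => 2 ^ j - 1) atTop (atTop : Filter ℕ) := by
    rw [tendsto_atTop_atTop]
    intro b
    refine ⟨b + 1, fun j hj => ?_⟩
    have : j < 2 ^ j := Nat.lt_two_pow_self
    omega
  have hest : ∀ j : ℕ, 1 ≤ j → |nrm R (1, if Even j then 1 else 0) -
      q * nrm P (1, if Even j then 1 else 0)| ≤
      (κ + 4) * (|δ (2 ^ (j + 1) - 1)| + |δ (2 ^ j - 1)|) := by
    intro j hj
    have hb1 := H_block (nrm P) ε j
    have hb2 := H_block (nrm R) ε j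
    have hpow : (1 : ℝ) ≤ 2 ^ j := one_le_pow₀ (by norm_num)
    have hpos : (0 : ℝ) < 2 ^ j := by positivity
    have h2j : 2 ≤ 2 ^ j := by
      calc 2 = 2 ^ 1 := rfl
        _ ≤ 2 ^ j := Nat.pow_le_pow_right (by norm_num) hj
    have h2j' : 2 ≤ 2 ^ (j + 1) := by
      calc 2 = 2 ^ 1 := rfl
        _ ≤ 2 ^ (j + 1) := Nat.pow_le_pow_right (by norm_num) (by omega)
    have e1 := hab (2 ^ j - 1) (by omega)
    have e2 := hab (2 ^ (j + 1) - 1) (by omega)
    have hle1 : a (2 ^ j - 1) ≤ (κ + 4) * 2 ^ j := by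
      have h3 := H_le hNP ε (2 ^ j - 1)
      have h4 : ((2 ^ j - 1 : ℕ) : ℝ) ≤ 2 ^ j := by
        have : 2 ^ j - 1 ≤ 2 ^ j := Nat.sub_le _ _
        exact_mod_cast this
      have h5 : κ ≤ κ * 2 ^ j := le_mul_of_one_le_right hκ hpow
      simp only [ha]
      nlinarith
    have hle2 : a (2 ^ (j + 1) - 1) ≤ (κ + 4) * 2 ^ j := by
      have h3 := H_le hNP ε (2 ^ (j + 1) - 1)
      have h4 : ((2 ^ (j + 1) - 1 : ℕ) : ℝ) ≤ 2 ^ (j + 1) := by
        have : 2 ^ (j + 1) - 1 ≤ 2 ^ (j + 1) := Nat.sub_le _ _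
        exact_mod_cast this
      have h5 : κ ≤ κ * 2 ^ j := le_mul_of_one_le_right hκ hpow
      have h6 : (2 : ℝ) ^ (j + 1) = 2 * 2 ^ j := by rw [pow_succ]; ring
      rw [h6] at h4
      simp only [ha]
      linarith
    have hge1 : 0 ≤ a (2 ^ j - 1) := by
      have h3 := H_ge hNP ε (2 ^ j - 1)
      have h4 : (0 : ℝ) ≤ ((2 ^ j - 1 : ℕ) : ℝ) := Nat.cast_nonneg _
      simp only [ha]; linarith
    have hge2 : 0 ≤ a (2 ^ (j + 1) - 1) := by
      have h3 := H_ge hNP ε (2 ^ (j + 1) - 1)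
      have h4 : (0 : ℝ) ≤ ((2 ^ (j + 1) - 1 : ℕ) : ℝ) := Nat.cast_nonneg _
      simp only [ha]; linarith
    have key : 2 ^ j * (nrm R (1, if Even j then 1 else 0) - q * nrm P (1, if Even j then 1 else 0))
        = a (2 ^ (j + 1) - 1) * δ (2 ^ (j + 1) - 1) - a (2 ^ j - 1) * δ (2 ^ j - 1) := by
      rw [← e1, ← e2]
      simp only [ha, hb]
      linear_combination q * hb1 - hb2
    have habs : 2 ^ j * |nrm R (1, if Even j then 1 else 0) -
        q * nrm P (1, if Even j then 1 else 0)| ≤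
        2 ^ j * ((κ + 4) * (|δ (2 ^ (j + 1) - 1)| + |δ (2 ^ j - 1)|)) := by
      calc 2 ^ j * |nrm R (1, if Even j then 1 else 0) - q * nrm P (1, if Even j then 1 else 0)|
          = |2 ^ j * (nrm R (1, if Even j then 1 else 0) -
            q * nrm P (1, if Even j then 1 else 0))| := by
            rw [abs_mul, abs_of_pos hpos]
        _ = |a (2 ^ (j + 1) - 1) * δ (2 ^ (j + 1) - 1) - a (2 ^ j - 1) * δ (2 ^ j - 1)| := by
            rw [key]
        _ ≤ |a (2 ^ (j + 1) - 1) * δ (2 ^ (j + 1) - 1)| + |a (2 ^ j - 1) * δ (2 ^ j - 1)| :=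
            abs_sub _ _
        _ = a (2 ^ (j + 1) - 1) * |δ (2 ^ (j + 1) - 1)| + a (2 ^ j - 1) * |δ (2 ^ j - 1)| := by
            rw [abs_mul, abs_mul, abs_of_nonneg hge1, abs_of_nonneg hge2]
        _ ≤ (κ + 4) * 2 ^ j * |δ (2 ^ (j + 1) - 1)| + (κ + 4) * 2 ^ j * |δ (2 ^ j - 1)| := by
            gcongr
        _ = _ := by ring
    exact le_of_mul_le_mul_left habs hpos
  have hlim : Tendsto (fun j : ℕ => (κ + 4) * (|δ (2 ^ (j + 1) - 1)| + |δ (2 ^ j - 1)|)) atTop
      (𝓝 0) := by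
    have h1 : Tendsto (fun j : ℕ => |δ (2 ^ j - 1)|) atTop (𝓝 0) := by
      have := (hδ0.comp hN).abs
      rwa [abs_zero] at this
    have h2 : Tendsto (fun j : ℕ => |δ (2 ^ (j + 1) - 1)|) atTop (𝓝 0) :=
      h1.comp (tendsto_add_atTop_nat 1)
    have h3 := (h2.add h1).const_mul (κ + 4)
    rwa [add_zero, mul_zero] at h3
  have heven : Tendsto (fun m : ℕ => 2 * m) atTop (atTop : Filter ℕ) :=
    tendsto_atTop_mono (fun m => by simp only [id]; omega) tendsto_id
  have hodd : Tendsto (fun m : ℕ => 2 * m + 1) atTop (atTop : Filter ℕ) :=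
    tendsto_atTop_mono (fun m => by simp only [id]; omega) tendsto_id
  have c1 : |nrm R (1, 1) - q * nrm P (1, 1)| ≤ 0 := by
    refine ge_of_tendsto (hlim.comp heven) ?_
    filter_upwards [eventually_ge_atTop 1] with m hm
    have := hest (2 * m) (by omega)
    rw [if_pos (even_two_mul m)] at this
    exact this
  have c2 : |nrm R (1, 0) - q * nrm P (1, 0)| ≤ 0 := by
    refine ge_of_tendsto (hlim.comp hodd) ?_
    filter_upwards with m
    have := hest (2 * m + 1) (by omega)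
    rw [if_neg (by simp)] at this
    exact this
  have d1 := abs_eq_zero.mp (le_antisymm c1 (abs_nonneg _))
  have d2 := abs_eq_zero.mp (le_antisymm c2 (abs_nonneg _))
  rw [nrm_one hP, nrm_one hR] at d2
  have hq : q = 1 := by linarith
  rw [hq, one_mul, nrm_one_one, nrm_one_one] at d1
  have d3 : (2 : ℝ) ^ (1 / R) = 2 ^ (1 / P) := by linarith
  rw [Real.rpow_right_inj (by norm_num) (by norm_num)] at d3
  apply hne
  have hP0 : P ≠ 0 := by linarith
  have hR0 : R ≠ 0 := by linarith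
  field_simp at d3
  exact d3

/-! ### The main theorem -/

lemma N_diag {N : ℝ × ℝ → ℝ} (hN : GoodNorm N) {a b : ℝ} (ha : 0 ≤ a) (hb : |b| = a) :
    N (a, b) = a * N (1, 1) := by
  have h1 : N (a, b) = N (a, a) := by
    apply le_antisymm <;> apply hN.mono _ _ _ _ le_rfl
    · rw [hb, abs_of_nonneg ha]
    · rw [hb, abs_of_nonneg ha]
  have h2 := hN.smul a (1, 1)
  rw [abs_of_nonneg ha] at h2
  rw [h1, ← h2]
  congr 1
  ext <;> simp

lemma N_left {N : ℝ × ℝ → ℝ} (hN : GoodNorm N) (a : ℝ) : N (a, 0) = |a| := by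
  have h2 := hN.smul a (1, 0)
  rw [hN.one, mul_one] at h2
  have h3 : (a • ((1 : ℝ), (0 : ℝ))) = (a, 0) := by simp
  rwa [h3] at h2

lemma N_right {N : ℝ × ℝ → ℝ} (hN : GoodNorm N) (a : ℝ) : N (0, a) = |a| := by
  have h2 := hN.smul a (0, 1)
  rw [hN.one', mul_one] at h2
  have h3 : (a • ((0 : ℝ), (1 : ℝ))) = (0, a) := by simp
  rwa [h3] at h2

theorem no_extension {P R : ℝ} (hP : 1 < P) (hR : 1 < R) (hne : P ≠ R) (o : XX)
    {σ τ : XX → XX → ℝ → XX} (hσ : IsConvexGeodesicBicombing (dX (nrm P)) σ)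
    (hτ : IsConvexGeodesicBicombing (dX (nrm R)) τ) :
    ¬ ∃ F : Bord (dX (nrm P)) σ o → Bord (dX (nrm R)) τ o,
      Continuous F ∧ ∀ x, F (Bord.ofPoint x) = Bord.ofPoint x := by
  rintro ⟨F, hF, hFx⟩
  have hNP := goodNorm_nrm hP
  have hNR := goodNorm_nrm hR
  have hdP := isMetric_dX hNP
  have hdR := isMetric_dX hNR
  obtain ⟨u, i, hr, s, hs, hy⟩ := o.2
  set ε : Bool := !i.2 with hε
  set κ : ℝ := nrm P (s - corner i) with hκ
  set κ' : ℝ := nrm R (s - corner i) with hκ'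
  have hκ0 : 0 ≤ κ := hNP.nonneg _
  have hκ'0 : 0 ≤ κ' := hNR.nonneg _
  set a : ℕ → ℝ := fun n => κ + H (nrm P) ε n with ha
  set b : ℕ → ℝ := fun n => κ' + H (nrm R) ε n with hb
  set z : ℕ → XX := fun n => ⟨(V (wd (u ++ [i]) ε n), o.1.2 + a n), V_wd_mem hr n⟩ with hz
  have hage : ∀ n : ℕ, (n : ℝ) ≤ a n := fun n => by
    have := H_ge hNP ε n
    simp only [ha]; linarith
  have hbge : ∀ n : ℕ, (n : ℝ) ≤ b n := fun n => by
    have := H_ge hNR ε n
    simp only [hb]; linarith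
  have ha0 : ∀ n, 0 ≤ a n := fun n => le_trans (Nat.cast_nonneg n) (hage n)
  have hb0 : ∀ n, 0 ≤ b n := fun n => le_trans (Nat.cast_nonneg n) (hbge n)
  -- distances for P
  have e1 : ∀ n, dX (nrm P) o (z n) = a n * nrm P (1, 1) := by
    intro n
    have h1 : D (nrm P) (pt u i s) (V (wd (u ++ [i]) ε n)) = a n := D_wd hNP u i s ε n
    show nrm P (D (nrm P) o.1.1 (V (wd (u ++ [i]) ε n)), o.1.2 - (o.1.2 + a n)) = _
    rw [hy, h1]
    apply N_diag hNP (ha0 n)
    rw [sub_add_cancel_left, abs_neg, abs_of_nonneg (ha0 n)]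
  have e2 : ∀ m n, m ≤ n → dX (nrm P) (z m) (z n) = (a n - a m) * nrm P (1, 1) := by
    intro m n hmn
    have h1 : D (nrm P) (V (wd (u ++ [i]) ε m)) (V (wd (u ++ [i]) ε n)) = a n - a m := by
      rw [D_wd_wd hNP _ _ hmn]; simp only [ha]; ring
    have h2 : 0 ≤ a n - a m := by rw [← h1]; exact (isMetric_D hNP).nonneg _ _
    show nrm P (D (nrm P) (V (wd (u ++ [i]) ε m)) (V (wd (u ++ [i]) ε n)),
      (o.1.2 + a m) - (o.1.2 + a n)) = _
    rw [h1]
    apply N_diag hNP h2
    rw [add_sub_add_left_eq_sub, abs_sub_comm, abs_of_nonneg h2]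
  have hge1 : 1 ≤ nrm P (1, 1) := by
    have := hNP.abs_fst_le (1, 1)
    simpa using this
  have halign : ∀ m n, m ≤ n →
      dX (nrm P) o (z m) + dX (nrm P) (z m) (z n) = dX (nrm P) o (z n) := by
    intro m n hmn
    rw [e1, e1, e2 m n hmn]; ring
  have hfar : ∀ n : ℕ, (n : ℝ) ≤ dX (nrm P) o (z n) := by
    intro n
    rw [e1]
    exact (hage n).trans (le_mul_of_one_le_right (ha0 n) hge1)
  obtain ⟨c, hc, hcz⟩ := exists_ray hNP o z halign hfar hσ
  have hlim := tendsto_ray o z hfar hc hcz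
  have hlim2 := (hF.tendsto _).comp hlim
  have hcomp : (F ∘ fun n => (Bord.ofPoint (z n) : Bord (dX (nrm P)) σ o)) =
      fun n => (Bord.ofPoint (z n) : Bord (dX (nrm R)) τ o) := by
    funext n
    exact hFx (z n)
  rw [hcomp] at hlim2
  -- distances for R
  have e3 : ∀ n, dX (nrm R) o (z n) = nrm R (b n, a n) := by
    intro n
    have h1 : D (nrm R) (pt u i s) (V (wd (u ++ [i]) ε n)) = b n := D_wd hNR u i s ε n
    show nrm R (D (nrm R) o.1.1 (V (wd (u ++ [i]) ε n)), o.1.2 - (o.1.2 + a n)) = _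
    rw [hy, h1]
    apply le_antisymm <;> apply hNR.mono _ _ _ _ le_rfl <;>
      rw [sub_add_cancel_left, abs_neg]
  have hfarR : ∀ n : ℕ, (n : ℝ) ≤ dX (nrm R) o (z n) := by
    intro n
    rw [e3]
    have := hNR.abs_fst_le (b n, a n)
    simp only [abs_of_nonneg (hb0 n)] at this
    exact (hbge n).trans this
  generalize F (Bord.ofRay ⟨c, hc⟩) = ξ at hlim2
  rcases ξ with x | c'
  · -- the limit is a point
    have hopen : IsOpen (Bord.ofPoint '' {y | dX (nrm R) x y < 1} : Set (Bord (dX (nrm R)) τ o)) :=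
      TopologicalSpace.isOpen_generateFrom_of_mem (Or.inl ⟨x, 1, rfl⟩)
    have hmem : (Sum.inl x : Bord (dX (nrm R)) τ o) ∈
        (Bord.ofPoint '' {y | dX (nrm R) x y < 1} : Set (Bord (dX (nrm R)) τ o)) :=
      ⟨x, by show dX (nrm R) x x < 1; rw [hdR.self]; exact one_pos, rfl⟩
    have hev := hlim2.eventually (hopen.mem_nhds hmem)
    obtain ⟨n, hn1, hn2⟩ := (hev.and (eventually_gt_atTop (⌈dX (nrm R) o x⌉₊ + 1))).exists
    obtain ⟨y, hy, hyz⟩ := hn1
    have hyz' : y = z n := Sum.inl.inj hyz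
    have hy' : dX (nrm R) x (z n) < 1 := by rw [← hyz']; exact hy
    have h1 := hdR.triangle o x (z n)
    have h2 := hfarR n
    have h3 := Nat.le_ceil (dX (nrm R) o x)
    have h4 : ((⌈dX (nrm R) o x⌉₊ + 1 : ℕ) : ℝ) < n := by exact_mod_cast hn2
    push_cast at h4
    linarith
  · -- the limit is a ray
    set x : ℝ := (c'.1 1).1.2 - o.1.2 with hx
    have hxlim : Tendsto (fun n => a n / dX (nrm R) o (z n)) atTop (𝓝 x) := by
      rw [Metric.tendsto_nhds]
      intro η hη
      have hopen : IsOpen (Bord.nbhd c' 1 η) :=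
        TopologicalSpace.isOpen_generateFrom_of_mem (Or.inr ⟨c', 1, η, one_pos, hη, rfl⟩)
      have hmem : (Sum.inr c' : Bord (dX (nrm R)) τ o) ∈ Bord.nbhd c' 1 η :=
        Or.inr ⟨c', rfl, by rw [hdR.self]; exact hη⟩
      filter_upwards [hlim2.eventually (hopen.mem_nhds hmem)] with n hn
      rcases hn with ⟨y, hy, hlt, hd⟩ | ⟨c'', hc'', _⟩
      · have hyz : y = z n := (Sum.inl.inj hy).symm
        rw [hyz] at hlt hd
        have hL : 0 < dX (nrm R) o (z n) := lt_trans (by simp) hlt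
        have ht : (((1 : NNReal) : ℝ) / dX (nrm R) o (z n)) ∈ Icc (0 : ℝ) 1 :=
          ⟨div_nonneg (by simp) hL.le, (div_le_one hL).mpr hlt.le⟩
        have hTP := (TP_dX hNR ht).mp (TP_of_isGeodesic (hτ.geodesic o (z n)) ht)
        have h1 := (abs_sub_le_dX hNR _ _).trans_lt hd
        rw [hTP.2] at h1
        have h2 : o.1.2 + ((1 : NNReal) : ℝ) / dX (nrm R) o (z n) * ((z n).1.2 - o.1.2) -
            (c'.1 1).1.2 = a n / dX (nrm R) o (z n) - x := by
          show o.1.2 + ((1 : NNReal) : ℝ) / dX (nrm R) o (z n) * ((o.1.2 + a n) - o.1.2) -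
            (c'.1 1).1.2 = a n / dX (nrm R) o (z n) - x
          rw [hx, NNReal.coe_one]
          ring
        rw [h2] at h1
        rw [Real.dist_eq]
        exact h1
      · exact absurd hc'' (by simp [Bord.ofPoint, Bord.ofRay])
    -- convergence of `b n / a n`
    have hR0 : 0 < R := by linarith
    have hxpos : 0 < x := by
      have h1 : 1 / (κ' + 3) ≤ x := by
        refine ge_of_tendsto hxlim ?_
        filter_upwards [eventually_ge_atTop 1] with n hn
        have hn' : (1 : ℝ) ≤ n := by exact_mod_cast hn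
        have ha1 : 1 ≤ a n := hn'.trans (hage n)
        have hL : dX (nrm R) o (z n) ≤ (κ' + 3) * a n := by
          rw [e3]
          have h2 := hNR.add_le (b n, 0) (0, a n)
          simp only [Prod.mk_add_mk, add_zero, zero_add] at h2
          have h3 : nrm R (b n, 0) = b n := by rw [N_left hNR, abs_of_nonneg (hb0 n)]
          have h4 : nrm R (0, a n) = a n := by rw [N_right hNR, abs_of_nonneg (ha0 n)]
          rw [h3, h4] at h2
          have h5 : b n ≤ κ' + 2 * n := by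
            have := H_le hNR ε n
            simp only [hb]; linarith
          have h6 := hage n
          have h7 : κ' ≤ κ' * a n := le_mul_of_one_le_right hκ'0 ha1
          nlinarith
        have hLpos : 0 < dX (nrm R) o (z n) := lt_of_lt_of_le (by linarith) (hfarR n)
        rw [div_le_div_iff₀ (by linarith) hLpos]
        linarith
      have h2 : 0 < 1 / (κ' + 3) := by positivity
      linarith
    have hinv : Tendsto (fun n => dX (nrm R) o (z n) / a n) atTop (𝓝 x⁻¹) := by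
      have := hxlim.inv₀ hxpos.ne'
      simpa only [inv_div] using this
    have hpow : Tendsto (fun n => (dX (nrm R) o (z n) / a n) ^ R) atTop (𝓝 (x⁻¹ ^ R)) :=
      hinv.rpow_const (Or.inr hR0.le)
    have hq : Tendsto (fun n => (b n / a n) ^ R) atTop (𝓝 (x⁻¹ ^ R - 1)) := by
      refine (hpow.sub_const 1).congr' ?_
      filter_upwards [eventually_ge_atTop 1] with n hn
      have hn' : (1 : ℝ) ≤ n := by exact_mod_cast hn
      have ha1 : 0 < a n := lt_of_lt_of_le one_pos (hn'.trans (hage n))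
      rw [e3, Real.div_rpow (hNR.nonneg _) ha1.le, nrm_rpow hR, Real.div_rpow (hb0 n) ha1.le]
      simp only [abs_of_nonneg (hb0 n), abs_of_nonneg (ha0 n)]
      have h1 : 0 < a n ^ R := Real.rpow_pos_of_pos ha1 R
      field_simp
      ring
    have hq2 : Tendsto (fun n => ((b n / a n) ^ R) ^ (1 / R)) atTop
        (𝓝 ((x⁻¹ ^ R - 1) ^ (1 / R))) :=
      hq.rpow_const (Or.inr (by positivity))
    have hq3 : Tendsto (fun n => (κ' + H (nrm R) ε n) / (κ + H (nrm P) ε n)) atTop
        (𝓝 ((x⁻¹ ^ R - 1) ^ (1 / R))) := by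
      refine hq2.congr ?_
      intro n
      rw [← Real.rpow_mul (div_nonneg (hb0 n) (ha0 n)), mul_one_div_cancel hR0.ne', Real.rpow_one]
    exact no_limit hP hR hne ε κ κ' hκ0 _ hq3

end Pool.Agent.H71.Cube
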